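import Pool.Agent.Lib.MP_6d0ce9_ag.An.Defs

/-!
# Rational and numerical equivalence in a range of degrees
-/

universe w v u

open CategoryTheory Category Limits MonoidalCategory Pretriangulated Triangulated

namespace Pool.Agent.Lib.MotT

section

variable {T : Type u} [Category.{v} T] [Preadditive T] [HasZeroObject T] [HasShift T ℤ]
  [∀ n : ℤ, (shiftFunctor T n).Additive] [Pretriangulated T] [MonoidalCategory T]
  [BraidedCategory T] {F : Type w} [Field F]

/-- If `A` in `S` is concentrated in degree `j < 0` and `2n ≤ mj`, then there are no nonzero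
morphisms `𝟙 ⟶ A[n]`. In the example: if `A` is the part `h^i(X)(p)[2p]` of degree `j = i - 2p`
of the motive `h(X)(p)[2p]`, this says that the part of `CH^p(X, r)`, `r = -n`, which belongs to
`h^i(X)` vanishes for `i < 2p`, `r ≥ m(2p - i)/2`; for `m = 2` this is the vanishing conjecture
of Beilinson and Soulé. -/
def VanishingUpTo (R : Realization T F) (S : ObjectProperty T) (m : ℤ) : Prop :=
  ∀ A : T, S A → ∀ j n : ℤ, R.ConcentratedIn j A → j < 0 → 2 * n ≤ m * j →
    ∀ f : 𝟙_ T ⟶ A⟦n⟧, f = 0

/-- If `A` in `S` is concentrated in degree `j`, then `A` is zero if `mj` is odd, and for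
`2n ≤ mj` every nonzero `f : 𝟙 ⟶ A[n]` has a nonzero composition with some `g : A[n] ⟶ 𝟙`.

As there are no nonzero morphisms `𝟙 ⟶ A[n]` for `n > 0`, this condition does not depend on `m`
for `j ≥ 0` (apart from the parity): it says that there are no nonzero morphisms `𝟙 ⟶ A[n]` for
`n < 0` and for `n = 0 < j`, and for `n = j = 0` it says in the example that rational and
numerical equivalence agree on the part `h^{2p}(X)(p)[2p]`. For `j < 0` it says that there are no
nonzero morphisms `𝟙 ⟶ A[n]` for `2n ≤ mj`; in the example: if `A` is the part `h^i(X)(p)[2p]` of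
degree `j = i - 2p` of the motive `h(X)(p)[2p]`, the part of `CH^p(X, r)`, `r = -n`, which belongs
to `h^i(X)` vanishes for `i < 2p`, `r ≥ m(2p - i)/2`; for `m = 2` this is the vanishing conjecture
of Beilinson and Soulé. -/
def NumUpTo (R : Realization T F) (S : ObjectProperty T) (m : ℤ) : Prop :=
  ∀ A : T, S A → ∀ j : ℤ, R.ConcentratedIn j A → (Odd (m * j) → IsZero A) ∧
    ∀ n : ℤ, 2 * n ≤ m * j → ∀ f : 𝟙_ T ⟶ A⟦n⟧, f ≠ 0 → ∃ g : A⟦n⟧ ⟶ 𝟙_ T, f ≫ g ≠ 0

end

end Pool.Agent.Lib.MotT
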