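import Pool.Agent.Lib.MP_6d0ce9_ag.An.KPG
import Pool.Agent.Lib.MP_6d0ce9_ag.St2.HeartF

/-!
# Decompositions of polarised objects and their twists
-/

set_option linter.unusedSectionVars false

universe w v u

open CategoryTheory Category Limits MonoidalCategory Pretriangulated Triangulated
  ObjectProperty
open scoped ZeroObject

namespace Pool.Agent.Lib.MotT

/-- the twist is the tensor product with the twist of the unit object -/
def twistIso {T : Type u} [Category.{v} T] [MonoidalCategory T] (W M : T) :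
    (k : ℕ) → (twist W M k ≅ M ⊗ twist W (𝟙_ T) k)
  | 0 => (ρ_ M).symm
  | k + 1 => whiskerRightIso (twistIso W M k) W ≪≫ α_ M (twist W (𝟙_ T) k) W

lemma exists_twist_inverse {T : Type u} [Category.{v} T] [MonoidalCategory T] {W W' : T}
    (e : W ⊗ W' ≅ 𝟙_ T) (k : ℕ) : ∃ L : T, Nonempty (twist W (𝟙_ T) k ⊗ L ≅ 𝟙_ T) := by
  induction k with
  | zero => exact ⟨𝟙_ T, ⟨λ_ (𝟙_ T)⟩⟩
  | succ k ih =>
    obtain ⟨L, ⟨f⟩⟩ := ih
    exact ⟨W' ⊗ L, ⟨α_ (twist W (𝟙_ T) k) W (W' ⊗ L) ≪≫
      whiskerLeftIso (twist W (𝟙_ T) k) ((α_ W W' L).symm ≪≫ whiskerRightIso e L ≪≫ λ_ L) ≪≫ f⟩⟩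

namespace Realization

variable {T : Type u} [Category.{v} T] [Preadditive T] [HasZeroObject T] [HasShift T ℤ]
  [∀ n : ℤ, (shiftFunctor T n).Additive] [Pretriangulated T] [IsTriangulated T]
  [MonoidalCategory T] [SymmetricCategory T] [∀ X : T, (tensorLeft X).CommShift ℤ]
  [∀ X : T, (tensorLeft X).IsTriangulated] {F : Type w} [Field F] {R : Realization T F}
  {t : TStructure T}

lemma conc_twist {W : T} (hW : R.ConcentratedIn (-2) W) (k : ℕ) :
    R.ConcentratedIn (-2 * (k : ℤ)) (twist W (𝟙_ T) k) := by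
  induction k with
  | zero =>
    change R.ConcentratedIn (-2 * ((0 : ℕ) : ℤ)) (𝟙_ T)
    simpa using R.unit_conc
  | succ k ih =>
    have h := R.conc_tensor (show -2 * (k : ℤ) + -2 = -2 * ((k + 1 : ℕ) : ℤ) by push_cast; ring)
      ih hW
    exact h

variable (R t) in
/-- an object with the prescribed levels and all Künneth projectors -/
def Gd (m : ℤ) (X : T) : Prop := R.Pl t m X ∧ ∀ n, R.KPl t m n X

lemma Gd.of_retract {m : ℤ} {X Y : T} (r : Retract X Y) (h : R.Gd t m Y) : R.Gd t m X :=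
  ⟨h.1.of_retract r, fun n => (h.2 n).of_retract r⟩

lemma Gd.tensor (ht : TensorCompatible t) {m b s : ℤ} (hs : 2 * s = b * m) {X V V' : T}
    (e : V ⊗ V' ≅ 𝟙_ T) (hV : R.ConcentratedIn b V) (hV1 : t.IsLE V s) (hV2 : t.IsLE V' (-s))
    (hX : R.Gd t m X) : R.Gd t m (X ⊗ V) := by
  refine ⟨hX.1.tensor ht hs e hV hV1 hV2, fun n => ?_⟩
  obtain ⟨W, u, v, hP, hW, huv⟩ := hX.2 (n - b)
  refine ⟨W ⊗ V, u ▷ V, v ▷ V, hP.tensor ht hs e hV hV1 hV2,
    R.conc_tensor (sub_add_cancel n b) hW hV, ?_⟩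
  rw [← comp_whiskerRight]
  exact huv.whiskerRight (sub_add_cancel n b) hV

section

variable (ht : TensorCompatible t) {m : ℤ} {W W' : T} (e : W ⊗ W' ≅ 𝟙_ T)
  (hW : R.ConcentratedIn (-2) W) (hW1 : t.IsLE W (-m)) (hW2 : t.IsLE W' m)

include ht e hW hW1 hW2

lemma Pl.twist {X : T} (hX : R.Pl t m X) (k : ℕ) : R.Pl t m (twist W X k) := by
  induction k with
  | zero => exact hX
  | succ k ih => exact ih.tensor ht (by ring) e hW hW1 (by rwa [neg_neg])

lemma Gd.twist {X : T} (hX : R.Gd t m X) (k : ℕ) : R.Gd t m (twist W X k) := by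
  induction k with
  | zero => exact hX
  | succ k ih => exact ih.tensor ht (by ring) e hW hW1 (by rwa [neg_neg])

lemma Gd.untwist {X : T} (k : ℕ) (hX : R.Gd t m (MotT.twist W X k)) : R.Gd t m X := by
  induction k with
  | zero => exact hX
  | succ k ih =>
    apply ih
    have hW' : R.ConcentratedIn 2 W' := by
      have := conc_inverse e hW
      rwa [neg_neg] at this
    have h := Gd.tensor (X := MotT.twist W X (k + 1)) ht (by ring : 2 * m = 2 * m)
      (β_ W' W ≪≫ e) hW' hW2 hW1 hX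
    exact h.of_retract (α_ (MotT.twist W X k) W W' ≪≫ whiskerLeftIso (MotT.twist W X k) e ≪≫
      ρ_ (MotT.twist W X k)).symm.retract

end

section

variable [CharZero F] (hnd : Nondegenerate t) (ht : TensorCompatible t)
  (hrig : IsRigid T) (hcons : R.Conservative) {m : ℤ} (hm : 2 ≤ m)

include hnd ht hrig hcons

/-- An endomorphism-type vanishing: a morphism between objects with the prescribed levels
concentrated in the same degree is zero if it is zero on cohomology. -/
lemma Pl.eq_zero {X Y : T} (hX : R.Pl t m X) (hY : R.Pl t m Y) {n : ℤ}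
    (hX' : R.ConcentratedIn n X) (hY' : R.ConcentratedIn n Y) (f : X ⟶ Y)
    (hf : R.mp n f = 0) : f = 0 := by
  obtain ⟨c, hc1, hc2⟩ : ∃ c : ℤ, 2 * c ≤ n * m ∧ n * m < 2 * c + 2 :=
    ⟨n * m / 2, by lia, by lia⟩
  refine eq_zero_of_level hnd ht hrig hcons (hX.pure hnd ht hrig hcons hX' hc1 hc2).1
    (hY.pure hnd ht hrig hcons hY' hc1 hc2).2 f fun i => ?_
  by_cases hi : i = n
  · subst hi
    exact hf
  · ext x
    exact (hY' i hi).elim _ _

/-- A Künneth projector gives a direct summand concentrated in one degree. -/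
lemma exists_summand' [IsIdempotentComplete T] {n : ℤ} {A : T} (h : R.KPl t m n A) :
    ∃ (D : T) (f : D ⟶ A) (r : A ⟶ D),
      R.ConcentratedIn n D ∧ f ≫ r = 𝟙 D ∧ R.IdOn n (r ≫ f) := by
  obtain ⟨W, u, v, hP, hW, huv⟩ := h
  unfold IdOn at huv
  have h1 : (v ≫ u) ≫ (v ≫ u) - v ≫ u = 0 := by
    apply Pl.eq_zero hnd ht hrig hcons hP hP hW hW
    have h2 : (v ≫ u) ≫ (v ≫ u) = v ≫ (u ≫ v) ≫ u := by simp only [assoc]
    rw [sub_eq_add_neg, mp_add, mp_neg, h2]
    ext x
    rw [LinearMap.add_apply, LinearMap.neg_apply, mp_comp_apply, mp_comp_apply, huv,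
      LinearMap.id_apply, mp_comp_apply, add_neg_cancel, LinearMap.zero_apply]
  obtain ⟨D, i, e, hie, hei⟩ := IsIdempotentComplete.idempotents_split W _ (sub_eq_zero.1 h1)
  refine ⟨D, i ≫ v, u ≫ e, fun j hj => R.van_of_retract ⟨i, e, hie⟩ (hW j hj), ?_, ?_⟩
  · have h2 : (i ≫ v) ≫ u ≫ e = i ≫ (v ≫ u) ≫ e := by simp only [assoc]
    rw [h2, ← hei, assoc, hie, comp_id, hie]
  · unfold IdOn
    have h2 : (u ≫ e) ≫ i ≫ v = (u ≫ v) ≫ (u ≫ v) := by
      rw [assoc, ← assoc e, hei]
      simp only [assoc]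
    rw [h2, mp_comp, huv, LinearMap.id_comp]

/-- Direct sum decompositions from Künneth projectors. -/
theorem dec_of_kpl [IsIdempotentComplete T]
    (A₀ : T) (a : ℤ) (N : ℕ) : ∀ A : T, Nonempty (Retract A A₀) → (∀ n, R.KPl t m n A) →
      (∀ i : ℤ, i < a ∨ a + N ≤ i → R.Van i A) →
      ∃ (n : ℕ) (B : Fin n → T), (∀ j, Nonempty (Retract (B j) A₀) ∧
        ∃ d : ℤ, R.ConcentratedIn d (B j)) ∧ Nonempty (A ≅ ⨁ B) := by
  induction N with
  | zero =>
    intro A _ _ hA
    refine ⟨0, Fin.elim0, fun j => j.elim0, iso_zero (hcons A fun i => hA i ?_) _⟩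
    rcases lt_or_ge i a with h | h
    · exact Or.inl h
    · exact Or.inr (by simpa using h)
  | succ N ih =>
    intro A hret hKP hA
    obtain ⟨r₀⟩ := hret
    obtain ⟨D, f, r, hD, hfr, hid⟩ := exists_summand' hnd ht hrig hcons (hKP (a + N))
    obtain ⟨A₁, q, p, hqp, hsum⟩ := exists_compl f r hfr
    have r₁ : Retract A₁ A := ⟨q, p, hqp⟩
    have rD : Retract D A := ⟨f, r, hfr⟩
    obtain ⟨n, B, hB, ⟨e⟩⟩ := ih A₁ ⟨r₁.trans r₀⟩ (fun n => KPl.of_retract r₁ (hKP n)) (by
      intro i hi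
      by_cases h1 : i = a + N
      · subst h1
        have h0 : ∀ x : R.Hm (a + N) A₁, x = 0 := by
          intro x
          unfold IdOn at hid
          have h5 : R.mp (a + N) (p ≫ q) = 0 := by
            have h6 : p ≫ q = 𝟙 A - r ≫ f := by rw [← hsum]; abel
            rw [h6, sub_eq_add_neg, mp_add, mp_neg, hid, mp_id, add_neg_cancel]
          have h6 : R.mp (a + N) q x = 0 := by
            have h7 : q = q ≫ (p ≫ q) := by rw [← assoc, hqp, id_comp]
            rw [h7, mp_comp_apply, h5, LinearMap.zero_apply]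
          have h7 := congrArg (R.mp (a + N) p) h6
          rwa [map_zero, ← mp_comp_apply, hqp, mp_id, LinearMap.id_apply] at h7
        exact ⟨fun x y => (h0 x).trans (h0 y).symm⟩
      · refine R.van_of_retract r₁ (hA i ?_)
        rcases hi with hi | hi
        · exact Or.inl hi
        · right
          push_cast
          lia)
    refine ⟨n + 1, Fin.cons D B, ?_, iso_cons f r q p hfr hqp hsum e⟩
    intro j
    induction j using Fin.cases with
    | zero => exact ⟨⟨rD.trans r₀⟩, _, hD⟩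
    | succ j => exact hB j

include hm

/-- Polarised objects have the prescribed levels and all Künneth projectors. -/
theorem gd_of_polarised [IsIdempotentComplete T] {W W' : T} (e : W ⊗ W' ≅ 𝟙_ T)
    (hW : R.ConcentratedIn (-2) W) (hW1 : t.IsLE W (-m)) (hW2 : t.IsGE W (-m))
    (hW3 : t.IsLE W' m) {M : T} (hM : R.IsPolarised W M) : R.Gd t m M := by
  have hW' : ¬ R.Van (-2) W := by
    obtain ⟨v, hv⟩ := exists_ne_zero_of_inverse e hW
    exact fun h => hv (h.elim _ _)
  have hP := pl_of_polarised hnd ht hrig hcons hW1 hW2 hW' hM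
  refine ⟨hP, ?_⟩
  obtain ⟨b, hb⟩ := R.bounded M
  obtain ⟨D, ε, hε⟩ := hM
  refine kpl_of_lef hnd ht hrig hcons hm 0 b.toNat M hP (fun i hi => hb i ?_) fun k _ => ?_
  · rw [sub_zero] at hi
    exact lt_of_le_of_lt (Int.self_le_toNat b) hi
  · obtain ⟨L', ⟨f⟩⟩ := exists_twist_inverse e k
    refine ⟨twist W (𝟙_ T) k, L', lefPow ε k ≫ (twistIso W M k).hom, ⟨f⟩,
      conc_twist hW k, fun X hX => ?_, ?_⟩
    · exact (hX.twist ht e hW hW1 hW3 k).of_iso (twistIso W X k).symm
    · rw [zero_sub, mp_comp]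
      have h0 : Function.Bijective (R.mp (-(k : ℤ)) (twistIso W M k).hom) := ?_
      · exact h0.comp (hε k).1
      constructor
      · intro x y hxy
        have h1 := congrArg (R.mp (-(k : ℤ)) (twistIso W M k).inv) hxy
        rwa [← mp_comp_apply, ← mp_comp_apply, (twistIso W M k).hom_inv_id, mp_id,
          LinearMap.id_apply, LinearMap.id_apply] at h1
      · intro y
        refine ⟨R.mp (-(k : ℤ)) (twistIso W M k).inv y, ?_⟩
        rw [← mp_comp_apply, (twistIso W M k).inv_hom_id, mp_id, LinearMap.id_apply]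

/-- Retracts of twists of polarised objects, up to twists. -/
theorem gd_of_retract [IsIdempotentComplete T] {W W' : T} (e : W ⊗ W' ≅ 𝟙_ T)
    (hW : R.ConcentratedIn (-2) W) (hW1 : t.IsLE W (-m)) (hW2 : t.IsGE W (-m))
    (hW3 : t.IsLE W' m) {M A : T} (hM : R.IsPolarised W M) {k l : ℕ}
    (r : Retract (twist W A k) (twist W M l)) : R.Gd t m A :=
  Gd.untwist ht e hW hW1 hW3 k (((gd_of_polarised hnd ht hrig hcons hm e hW hW1 hW2 hW3
    hM).twist ht e hW hW1 hW3 l).of_retract r)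

end

end Realization

end Pool.Agent.Lib.MotT
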