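import Pool.Agent.Lib.MP_6d0ce9_ag.LefDefs
import Pool.Agent.Lib.MP_6d0ce9_ag.St.PolDefs

/-!
# Chow motives as retracts of twists of polarised objects, and the vanishing conjecture of
Beilinson and Soulé: definitions

Example to keep in mind: `T` is the category of constructible motives with rational coefficients
over a field of characteristic zero, `W = ℚ(1)[2]`, `S` is the class of Chow motives, and the
polarised objects are the motives `h(X)(d/2)[d]` with `X` smooth projective of even dimension `d`.
-/

universe w v u

open CategoryTheory Category Limits MonoidalCategory Pretriangulated Triangulated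

namespace Pool.Agent.Lib.MotT

section

variable {T : Type u} [Category.{v} T] [Preadditive T] [HasZeroObject T] [HasShift T ℤ]
  [∀ n : ℤ, (shiftFunctor T n).Additive] [Pretriangulated T] [MonoidalCategory T]
  [BraidedCategory T] {F : Type w} [Field F]

/-- For every `A` in `S` some twist `A ⊗ W ⊗ ⋯ ⊗ W` is a retract of a twist `M ⊗ W ⊗ ⋯ ⊗ W` of a
polarised object `M`. In the example: the Chow motives are the retracts of the objects
`h(X)(n)[2n]` with `X` smooth projective of even dimension `d` (replace `X` by `X × ℙ¹` if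
necessary), which is the twist of `h(X)(d/2)[d]` by `W^(n - d/2)`. -/
def PolarisedGenerated (R : Realization T F) (W : T) (S : ObjectProperty T) : Prop :=
  ∀ A : T, S A → ∃ (M : T) (k l : ℕ), R.IsPolarised W M ∧
    Nonempty (Retract (twist W A k) (twist W M l))

/-- If `A` in `S` is concentrated in degree `j < 0` and `n ≤ j`, then there are no nonzero
morphisms `𝟙 ⟶ A[n]`. In the example: if `A` is the part `h^i(X)(p)[2p]` of degree `j = i - 2p`
of the motive `h(X)(p)[2p]`, this says that the part of `CH^p(X, r)`, `r = -n`, which belongs to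
`h^i(X)` vanishes for `i < 2p`, `r ≥ 2p - i`, the vanishing conjecture of Beilinson and Soulé. -/
def BeilinsonSoule (R : Realization T F) (S : ObjectProperty T) : Prop :=
  ∀ A : T, S A → ∀ j n : ℤ, R.ConcentratedIn j A → j < 0 → n ≤ j →
    ∀ f : 𝟙_ T ⟶ A⟦n⟧, f = 0

/-- If `A` in `S` is concentrated in degree `j ≥ 0` and `n ≤ j`, then for every nonzero
`f : 𝟙 ⟶ A[n]` there is `g : A[n] ⟶ 𝟙` with `f ≫ g ≠ 0`. As the unit object is concentrated in
degree `0` and there are no nonzero morphisms `𝟙 ⟶ A[n]` for `n > 0`, this means that there are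
no nonzero morphisms `𝟙 ⟶ A[n]` unless `n = j = 0`, and for `n = j = 0` it says in the example
that rational and numerical equivalence agree on the part `h^{2p}(X)(p)[2p]`. -/
def RatEqNumFromZero (R : Realization T F) (S : ObjectProperty T) : Prop :=
  ∀ A : T, S A → ∀ j n : ℤ, R.ConcentratedIn j A → 0 ≤ j → n ≤ j →
    ∀ f : 𝟙_ T ⟶ A⟦n⟧, f ≠ 0 → ∃ g : A⟦n⟧ ⟶ 𝟙_ T, f ≫ g ≠ 0

end

end Pool.Agent.Lib.MotT
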