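import Pool.Agent.Lib.MP_6d0ce9_ag.St2.HeartF
import Pool.Agent.Lib.MP_6d0ce9_ag.Lef

/-!
# Invertible objects are concentrated in one degree for every t-structure
-/

set_option linter.unusedSectionVars false

universe w v u

open CategoryTheory Category Limits MonoidalCategory Pretriangulated Triangulated

namespace Pool.Agent.Lib.MotT

namespace Realization

variable {T : Type u} [Category.{v} T] [Preadditive T] [HasZeroObject T] [HasShift T ℤ]
  [∀ n : ℤ, (shiftFunctor T n).Additive] [Pretriangulated T] [IsTriangulated T]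
  [MonoidalCategory T] [SymmetricCategory T] [∀ X : T, (tensorLeft X).CommShift ℤ]
  [∀ X : T, (tensorLeft X).IsTriangulated] {F : Type w} [Field F] {R : Realization T F}
  {t : TStructure T}

/-- The dimensions of the truncations add up. -/
lemma dm_trunc [CharZero F] (hnd : Nondegenerate t) (ht : TensorCompatible t)
    (hrig : IsRigid T) (hcons : R.Conservative) {a : ℤ} {M A B : T} {f : A ⟶ M}
    {g : M ⟶ B} {δ : B ⟶ A⟦(1 : ℤ)⟧} (hT : Triangle.mk f g δ ∈ distTriang T)
    (hA : t.IsLE A a) (hB : t.IsGE B (a + 1)) : R.dm A + R.dm B ≤ R.dm M := by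
  have hinj : Function.Injective (R.tmap f) := by
    rw [injective_iff_map_eq_zero]
    intro x hx
    refine DFinsupp.ext fun i => ?_
    refine trunc_injective hnd ht hrig hcons i hT hA hB (x i) ?_
    rw [← TotF_apply, hx]
    rfl
  have hδ : R.tmap δ = 0 := by
    have h1 : t.IsLE (A⟦(1 : ℤ)⟧) (a - 1) := t.isLE_shift A a 1 (a - 1) (by lia)
    exact tmap_eq_zero_of_levels hnd ht hrig hcons hB
      (t.isLE_of_le (A⟦(1 : ℤ)⟧) (a - 1) a (by lia)) δ
  have hsurj : Function.Surjective (R.tmap g) := by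
    intro z
    exact R.tot_exact₂ (rot_of_distTriang _ hT) z (by
      change R.tmap δ z = 0
      rw [hδ, LinearMap.zero_apply])
  have h1 := LinearMap.finrank_range_add_finrank_ker (R.tmap g)
  have h2 : Module.finrank F (LinearMap.range (R.tmap g)) = R.dm B := by
    rw [LinearMap.range_eq_top.2 hsurj]
    exact finrank_top F _
  have h3 : Module.finrank F (LinearMap.range (R.tmap f)) = R.dm A :=
    LinearMap.finrank_range_of_inj hinj
  have h4 : Module.finrank F (LinearMap.range (R.tmap f)) ≤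
      Module.finrank F (LinearMap.ker (R.tmap g)) := by
    refine Submodule.finrank_mono ?_
    rintro _ ⟨x, rfl⟩
    have h5 : f ≫ g = 0 := comp_distTriang_mor_zero₁₂ _ hT
    rw [LinearMap.mem_ker, ← tmap_comp_apply, h5, tmap_zero, LinearMap.zero_apply]
  rw [h2] at h1
  rw [h3] at h4
  unfold dm at *
  omega

/-- An object with cohomology of dimension one is concentrated in one degree. -/
lemma exists_degree_of_dm [CharZero F] (hnd : Nondegenerate t) (ht : TensorCompatible t)
    (hrig : IsRigid T) (hcons : R.Conservative) {X : T} (hX : R.dm X = 1) :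
    ∃ s : ℤ, t.IsLE X s ∧ t.IsGE X s := by
  have halt : ∀ a : ℤ, t.IsLE X a ∨ t.IsGE X (a + 1) := by
    intro a
    obtain ⟨A, B, f, g, δ, hT, hA, hB⟩ := exists_trunc t X a (a + 1) rfl
    have h1 := dm_trunc hnd ht hrig hcons hT hA hB
    by_cases hA0 : IsZero A
    · right
      have : IsIso g := (Triangle.isZero₁_iff_isIso₂ _ hT).1 hA0
      exact t.isGE_of_iso (asIso g).symm _
    · left
      have h2 := dm_pos hcons hA0
      have h3 : R.dm B = 0 := by omega
      have hB0 : IsZero B := hcons B ((R.dm_eq_zero_iff B).1 h3)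
      have : IsIso f := (Triangle.isZero₃_iff_isIso₁ _ hT).1 hB0
      exact t.isLE_of_iso (asIso f) _
  obtain ⟨b, hb1, hb2⟩ := bounded_of_conservative hnd ht hcons X
  have hX0 : ¬ IsZero X := by
    intro h
    rw [(R.dm_eq_zero_iff X).2 fun i => R.van_of_isZero h i] at hX
    exact zero_ne_one hX
  have key : ∀ k : ℕ, t.IsLE X (b - k) ∨ ∃ s : ℤ, t.IsLE X s ∧ t.IsGE X s := by
    intro k
    induction k with
    | zero => left; simpa using hb2
    | succ k ih =>
      rcases ih with ih | ih
      · rcases halt ((b : ℤ) - k - 1) with h | h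
        · left
          rwa [show (b : ℤ) - ((k + 1 : ℕ) : ℤ) = b - k - 1 by push_cast; ring]
        · right
          refine ⟨(b : ℤ) - k, ih, ?_⟩
          rwa [sub_add_cancel] at h
      · exact Or.inr ih
  rcases key (2 * b + 1) with h | h
  · exfalso
    apply hX0
    rw [IsZero.iff_id_eq_zero]
    exact t.zero_of_isLE_of_isGE _ _ _ (by push_cast; lia) h hb1
  · exact h

/-- An invertible object is concentrated in one degree. -/
theorem exists_degree [CharZero F] (hnd : Nondegenerate t) (ht : TensorCompatible t)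
    (hrig : IsRigid T) (hcons : R.Conservative) {W W' : T} (e : W ⊗ W' ≅ 𝟙_ T) :
    ∃ s : ℤ, t.IsLE W s ∧ t.IsGE W s ∧ t.IsLE W' (-s) ∧ t.IsGE W' (-s) := by
  have h1 : R.dm W * R.dm W' = 1 := by rw [← dm_tensor, R.dm_iso e, dm_unit]
  obtain ⟨s, h2, h3⟩ := exists_degree_of_dm hnd ht hrig hcons (Nat.eq_one_of_mul_eq_one_right h1)
  obtain ⟨s', h4, h5⟩ := exists_degree_of_dm hnd ht hrig hcons (Nat.eq_one_of_mul_eq_one_left h1)
  have h6 : s + s' = 0 := by
    have hne : 𝟙 (𝟙_ T) ≠ 0 := by
      intro h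
      obtain ⟨c₀, hc₀⟩ := R.nontrivial_unit
      apply hc₀
      have h2 : R.mp 0 (𝟙 (𝟙_ T)) c₀ = 0 := by rw [h, R.mp_zero, LinearMap.zero_apply]
      rwa [R.mp_id] at h2
    have h7 := (unit_mem hnd ht)
    have h8 := le_tensor ht h2 h4
    have h9 := ge_tensor ht h3 h5
    rcases lt_trichotomy (s + s') 0 with h | h | h
    · exfalso
      apply hne
      have h10 := t.isLE_of_iso e (s + s')
      exact t.zero_of_isLE_of_isGE _ _ _ h h10 h7.2
    · exact h
    · exfalso
      apply hne
      have h10 := t.isGE_of_iso e (s + s')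
      exact t.zero_of_isLE_of_isGE _ _ _ h h7.1 h10
  obtain rfl : s' = -s := by lia
  exact ⟨s, h2, h3, h4, h5⟩

/-- The degree of `W` is at most `-2` if there is a nonzero morphism from the unit object to
`W[-1]`. -/
theorem two_le_of_unit [CharZero F] (hnd : Nondegenerate t) (ht : TensorCompatible t)
    (hrig : IsRigid T) (hcons : R.Conservative) {W : T}
    (hW : R.ConcentratedIn (-2) W) {m : ℤ} (h2 : t.IsGE W (-m))
    (f : 𝟙_ T ⟶ W⟦(-1 : ℤ)⟧) (hf : f ≠ 0) : 2 ≤ m := by
  by_contra hm
  apply hf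
  have hu := unit_mem hnd ht
  have h4 : t.IsGE (W⟦(-1 : ℤ)⟧) (-m + 1) := t.isGE_shift W (-m) (-1) (-m + 1) (by lia)
  have h5 : t.IsGE (W⟦(-1 : ℤ)⟧) 0 := t.isGE_of_ge _ 0 (-m + 1) (by lia)
  refine eq_zero_of_level hnd ht hrig hcons hu.1 h5 f fun i => ?_
  by_cases hi : i = -1
  · ext x
    have h6 : R.Van i (𝟙_ T) := R.unit_conc i (by lia)
    rw [show x = 0 from h6.elim _ _, map_zero, map_zero]
  · ext x
    exact (hW.shift (-1) i (by lia)).elim _ _

end Realization

end Pool.Agent.Lib.MotT
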