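import Pool.Agent.Lib.MP_6d0ce9_ag.An.Uniq
import Pool.Agent.Lib.MP_6d0ce9_ag.An.ClDefs
import Pool.Agent.Lib.MP_6d0ce9_ag.KCfib
import Pool.Agent.Lib.MP_6d0ce9_ag.LefMain

/-!
# Existence of the t-structure with `W` in a given degree
-/

set_option linter.unusedSectionVars false

universe w v u

open CategoryTheory Category Limits MonoidalCategory Pretriangulated Triangulated
  ObjectProperty
open scoped ZeroObject

namespace Pool.Agent.Lib.MotT

section Orth

variable {T : Type u} [Category.{v} T] [Preadditive T] [HasZeroObject T] [HasShift T ℤ]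
  [∀ n : ℤ, (shiftFunctor T n).Additive] [Pretriangulated T] {D : ℤ → ObjectProperty T}

/-- Orthogonality passes to iterated extensions and retracts. -/
lemma RC_orth {p q : ℤ → Prop}
    (h : ∀ a b, p a → q b → ∀ X Y : T, D a X → D b Y → ∀ f : X ⟶ Y, f = 0)
    {X Y : T} (hX : RC D p X) (hY : RC D q Y) (f : X ⟶ Y) : f = 0 := by
  obtain ⟨X', ⟨l, hl, hX'⟩, ⟨r⟩⟩ := hX
  obtain ⟨Y', ⟨l', hl', hY'⟩, ⟨r'⟩⟩ := hY
  have key₁ : ∀ b, q b → ∀ Z : T, D b Z → ∀ g : X' ⟶ Z, g = 0 := by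
    intro b hb Z hZ
    clear r r' f hY'
    induction l generalizing X' with
    | nil => exact fun g => IsZero.eq_of_src hX' _ _
    | cons c l ih =>
      intro g
      obtain ⟨A, A', u, v, δ, hT, hA, hA'⟩ := hX'
      obtain ⟨k, hk⟩ : ∃ k : A' ⟶ Z, g = v ≫ k :=
        Triangle.yoneda_exact₂ _ hT g (h c b (hl c (by simp)) hb _ _ hA hZ _)
      rw [hk, ih A' (fun d hd => hl d (by simp [hd])) hA' k, comp_zero]
  have key₂ : ∀ g : X' ⟶ Y', g = 0 := by
    clear r' f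
    induction l' generalizing Y' with
    | nil => exact fun g => IsZero.eq_of_tgt hY' _ _
    | cons c l' ih =>
      intro g
      obtain ⟨B, B', u, v, δ, hT, hB, hB'⟩ := hY'
      obtain ⟨k, hk⟩ : ∃ k : X' ⟶ B, g = k ≫ u :=
        Triangle.coyoneda_exact₂ _ hT g (ih B' (fun d hd => hl' d (by simp [hd])) hB' _)
      rw [hk, key₁ c (hl' c (by simp)) B hB k, zero_comp]
  have h2 : f = r.i ≫ (r.r ≫ f ≫ r'.i) ≫ r'.r := by
    simp only [assoc]
    rw [r'.retract, comp_id, r.retract_assoc]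
  rw [h2, key₂ (r.r ≫ f ≫ r'.i), zero_comp, comp_zero]

end Orth

variable {T : Type u} [Category.{v} T] [Preadditive T] [HasZeroObject T] [HasShift T ℤ]
  [∀ n : ℤ, (shiftFunctor T n).Additive] [Pretriangulated T] [IsTriangulated T]
  [MonoidalCategory T] [SymmetricCategory T] [∀ X : T, (tensorLeft X).CommShift ℤ]
  [∀ X : T, (tensorLeft X).IsTriangulated] {F : Type w} [Field F] {R : Realization T F}
  {S : ObjectProperty T}

section

variable (hrig : IsRigid T) (hS : IsChowClass S) (hnum : RatEqNumFromZero R S) {m : ℤ}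
  (hm : 2 ≤ m) (hV : VanishingUpTo R S m)

include hS hnum in
/-- A morphism `𝟙 ⟶ C[n]` which factors the identity forces `C[n]` to be in degree `0`. -/
lemma detect_degree {C : T} {j n : ℤ} (hC : S C) (hj : R.ConcentratedIn j C) (hj0 : 0 ≤ j)
    (hn : n ≤ j) (f : 𝟙_ T ⟶ C⟦n⟧) (hf : f ≠ 0) : j = n := by
  by_contra hne
  obtain ⟨g, hg⟩ := hnum C hC j n hj hj0 hn f hf
  have hiso := hS.field _ hg
  obtain ⟨c₀, hc₀⟩ := R.nontrivial_unit
  have h1 : R.mp 0 (f ≫ g) = 0 := by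
    ext x
    rw [R.mp_comp_apply]
    have h2 : R.Van 0 (C⟦n⟧) := (hj.shift n) 0 (by lia)
    rw [show R.mp 0 f x = 0 from h2.elim _ _, map_zero]
    rfl
  apply hc₀
  have h3 : R.mp 0 ((f ≫ g) ≫ inv (f ≫ g)) c₀ = c₀ := by
    rw [IsIso.hom_inv_id, R.mp_id, LinearMap.id_apply]
  rw [← h3, R.mp_comp_apply, h1, LinearMap.zero_apply, map_zero]

include hS hnum hV in
/-- The vanishing of `Hom(𝟙, C[n])` below the line. -/
lemma hom_unit_zero {C : T} (hC : S C) {j n : ℤ} (hj : R.ConcentratedIn j C)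
    (h : 2 * n < m * j) (f : 𝟙_ T ⟶ C⟦n⟧) : f = 0 := by
  by_contra hf
  rcases lt_or_ge j 0 with hj0 | hj0
  · exact hf (hV C hC j n hj hj0 h.le f)
  · rcases lt_or_ge 0 n with hn | hn
    · exact hf (hS.pos C hC n hn f)
    · have h1 := detect_degree hS hnum hC hj hj0 (hn.trans hj0) f hf
      obtain rfl : j = 0 := by lia
      lia

include hS hnum hV in
/-- Orthogonality for the objects of prescribed degree. -/
lemma Dg_orth {a b : ℤ} (hab : a < b) {X Y : T} (hX : Dg R S m a X) (hY : Dg R S m b Y)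
    (f : X ⟶ Y) : f = 0 := by
  obtain ⟨A, i, k, hA, hi, h2, ⟨eA⟩⟩ := hX
  obtain ⟨B, j, l, hB, hj, h3, ⟨eB⟩⟩ := hY
  obtain ⟨A', hA', ⟨_⟩⟩ := hS.dual A hA
  let e : (B⟦l - k⟧)⟦k⟧ ≅ B⟦l⟧ := ((shiftFunctorAdd' T (l - k) k l (by lia)).app B).symm
  obtain ⟨f₀, hf₀⟩ := (shiftFunctor T k).map_surjective (eA.inv ≫ f ≫ eB.hom ≫ e.inv)
  have h4 : f₀ = 0 := by
    apply tr_injective (A' := A')
    rw [← cancel_mono (shiftLeft B A' (l - k)).hom, zero_comp]
    refine hom_unit_zero (m := m) hS hnum hV (hS.tensor B A' hB hA')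
      (R.conc_tensor (rfl : j + -i = j + -i) hj (R.conc_dual hi)) ?_ _
    have h5 : m * (j + -i) = j * m - i * m := by ring
    lia
  have h5 : f = eA.hom ≫ (eA.inv ≫ f ≫ eB.hom ≫ e.inv) ≫ e.hom ≫ eB.inv := by simp
  rw [h5, ← hf₀, h4, Functor.map_zero, zero_comp, comp_zero]

include hS hnum in
/-- Morphisms between objects of `S` of the same degree have quasi-inverses. -/
lemma quasi_inverse' {A B : T} (hA : S A) (hB : S B) {j : ℤ} (hAj : R.ConcentratedIn j A)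
    (hBj : R.ConcentratedIn j B) (f : B ⟶ A) : ∃ g : A ⟶ B, f ≫ g ≫ f = f := by
  obtain ⟨A', hA', ⟨_⟩⟩ := hS.dual A hA
  obtain ⟨B', hB', ⟨_⟩⟩ := hS.dual B hB
  have key : ∀ C : T, S C → R.ConcentratedIn 0 C → ∀ f : 𝟙_ T ⟶ C, f ≠ 0 →
      ∃ g : C ⟶ 𝟙_ T, f ≫ g ≠ 0 := by
    intro C hC hC0 f hf
    obtain ⟨g, hg⟩ := hnum C hC 0 0 hC0 le_rfl le_rfl
      (f ≫ ((shiftFunctorZero T ℤ).app C).inv) (fun h => hf (by
        rw [← cancel_mono ((shiftFunctorZero T ℤ).app C).inv, h, zero_comp]))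
    exact ⟨((shiftFunctorZero T ℤ).app C).inv ≫ g, by rwa [← assoc]⟩
  have key' : ∀ C : T, S C → R.ConcentratedIn 0 C → Perf.Inj (𝟙_ T) C ∧ Perf.Surj (𝟙_ T) C := by
    intro C hC hC0
    obtain ⟨C', hC', ⟨_⟩⟩ := hS.dual C hC
    have hC0' : R.ConcentratedIn 0 C' := by simpa using R.conc_dual hC0
    exact perf_of_nondeg R hS.field (key C hC hC0) (key C' hC' hC0')
  exact exists_quasi_inverse R hS.field
    (key' _ (hS.tensor B A' hB hA')
      (R.conc_tensor (by ring) hBj (R.conc_dual hAj))).1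
    (key' _ (hS.tensor A B' hA hB')
      (R.conc_tensor (by ring) hAj (R.conc_dual hBj))).2 f

include hS hnum hm hV in
/-- Extensions can be swapped. -/
lemma Dg_swap' [IsIdempotentComplete T] [S.IsStableUnderRetracts] (a b : ℤ) (h : b < a) :
    extensionProduct (Dg R S m a) (Dg R S m b) ≤
      extensionProduct (Dg R S m b) (Dg R S m a) := by
  rintro X ⟨A, B, f, g, δ, hT, hA, hB⟩
  obtain ⟨s, hs⟩ : ∃ s : A⟦(1 : ℤ)⟧ ⟶ B, δ ≫ s ≫ δ = δ := by
    by_cases h0 : δ = 0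
    · exact ⟨0, by rw [h0, zero_comp]⟩
    have hA1 := Dg_shift m a 1 A hA
    obtain rfl : b = a - 1 := by
      by_contra hne
      exact h0 (Dg_orth hS hnum hV (by lia) hB hA1 δ)
    obtain ⟨A₀, j, k, hA₀, hj, h3, ⟨eA⟩⟩ := hA1
    obtain ⟨B₀, j', l, hB₀, hj', h3', ⟨eB⟩⟩ := hB
    obtain ⟨B', hB', ⟨_⟩⟩ := hS.dual B₀ hB₀
    let e : (A₀⟦k - l⟧)⟦l⟧ ≅ A₀⟦k⟧ := ((shiftFunctorAdd' T (k - l) l k (by lia)).app A₀).symm
    obtain ⟨f₀, hf₀⟩ := (shiftFunctor T l).map_surjective (eB.inv ≫ δ ≫ eA.hom ≫ e.inv)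
    have h5 : δ = eB.hom ≫ f₀⟦l⟧' ≫ e.hom ≫ eA.inv := by
      rw [hf₀]
      simp
    have hf0 : f₀ ≠ 0 := by
      intro h6
      apply h0
      rw [h5, h6, Functor.map_zero, zero_comp, comp_zero]
    have h6 : (tr f₀ : 𝟙_ T ⟶ A₀⟦k - l⟧ ⊗ B') ≫ (shiftLeft A₀ B' (k - l)).hom ≠ 0 := by
      intro h7
      apply hf0
      apply tr_injective (A' := B')
      rw [← cancel_mono (shiftLeft A₀ B' (k - l)).hom, h7, zero_comp]
    have hC := hS.tensor A₀ B' hA₀ hB'
    have hCj : R.ConcentratedIn (j + -j') (A₀ ⊗ B') := R.conc_tensor rfl hj (R.conc_dual hj')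
    have h7 : 2 * (k - l) = m * (j + -j') := by linear_combination h3 - h3'
    obtain ⟨hjj, hkl⟩ : j = j' ∧ k = l := by
      rcases lt_trichotomy (j + -j') 0 with h8 | h8 | h8
      · exact absurd (hV _ hC _ _ hCj h8 h7.le _) h6
      · have h9 : m * (j + -j') = 0 := by rw [h8, mul_zero]
        exact ⟨by lia, by lia⟩
      · exact absurd (hS.pos _ hC (k - l) (by nlinarith) _) h6
    subst hjj hkl
    obtain ⟨f₁, hf₁⟩ := (shiftFunctor T k).map_surjective (eB.inv ≫ δ ≫ eA.hom)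
    obtain ⟨g₁, hg₁⟩ := quasi_inverse' hS hnum hA₀ hB₀ hj hj' f₁
    refine ⟨eA.hom ≫ g₁⟦k⟧' ≫ eB.inv, ?_⟩
    have h8 : δ = eB.hom ≫ f₁⟦k⟧' ≫ eA.inv := by
      rw [hf₁]
      simp
    have h9 : f₁⟦k⟧' ≫ g₁⟦k⟧' ≫ f₁⟦k⟧' = f₁⟦k⟧' := by
      rw [← Functor.map_comp, ← Functor.map_comp, hg₁]
    calc δ ≫ (eA.hom ≫ g₁⟦k⟧' ≫ eB.inv) ≫ δ
        = eB.hom ≫ (f₁⟦k⟧' ≫ g₁⟦k⟧' ≫ f₁⟦k⟧') ≫ eA.inv := by
          rw [h8]
          simp only [assoc, Iso.inv_hom_id_assoc]
      _ = δ := by rw [h9, ← h8]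
  obtain ⟨K, C, ⟨rK⟩, ⟨rC⟩, ⟨e⟩⟩ := swap_of_split hT s hs
  exact (extensionProduct (Dg R S m b) (Dg R S m a)).prop_of_iso e.symm
    ⟨_, _, _, _, _, binaryBiproductTriangle_distinguished K C, Dg_retract rK hB,
      Dg_retract rC hA⟩

end

/-- The objects of prescribed degree generate. -/
lemma Dg_generates' [S.IsStableUnderRetracts] (hS : IsChowClass S) (hCK : ChowKunneth R S)
    {m : ℤ} (hodd : ∀ A, S A → ∀ j, R.ConcentratedIn j A → ¬ Even (j * m) → IsZero A) :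
    (Sorting.anyOf (Dg R S m)).IsClassicalTriangulatedGenerator := by
  obtain ⟨Q, hQ⟩ : ∃ Q : ObjectProperty T, Q = Sorting.anyOf (Dg R S m) := ⟨_, rfl⟩
  rw [← hQ]
  have hu : ∀ G, S G → ∀ d, R.ConcentratedIn d G → Q G := by
    intro G hG d hd
    rw [hQ]
    by_cases h : Even (d * m)
    · obtain ⟨c, hc⟩ := h
      exact ⟨c, G, d, 0, hG, hd, by linarith, ⟨((shiftFunctorZero T ℤ).app G).symm⟩⟩
    · have h0 := hodd G hG d hd h
      exact ⟨0, G, 0, 0, hG, fun i _ => R.van_of_isZero h0 i, by ring,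
        ⟨((shiftFunctorZero T ℤ).app G).symm⟩⟩
  have hne : Q.Nonempty := ⟨𝟙_ T, hu _ hS.unit 0 R.unit_conc⟩
  have h := hS.generates
  rw [isClassicalTriangulatedGenerator_iff, eq_top_iff] at h ⊢
  refine h.trans ((triangEnvelope_le_iff _).2 ?_)
  intro G hG
  obtain ⟨n, B, hB, ⟨e⟩⟩ := hCK G hG
  refine Q.triangEnvelope.prop_of_iso ((biproduct.isoProduct B).symm ≪≫ e.symm : ∏ᶜ B ≅ G)
    (prop_product _ fun j => ?_)
  obtain ⟨h1, d, h2⟩ := hB j
  exact Q.le_triangEnvelope _ (hu _ h1 d h2)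

/-- Tensor products of objects of prescribed degrees. -/
lemma Dg_tensor (hS : IsChowClass S) {m a b c : ℤ} {X Y : T} (hc : a + b = c)
    (hX : Dg R S m a X) (hY : Dg R S m b Y) : Dg R S m c (X ⊗ Y) := by
  obtain ⟨A, i, k, hA, hi, h2, ⟨eA⟩⟩ := hX
  obtain ⟨B, j, l, hB, hj, h3, ⟨eB⟩⟩ := hY
  refine ⟨A ⊗ B, i + j, k + l, hS.tensor _ _ hA hB, R.conc_tensor rfl hi hj, by
    rw [← hc]; linear_combination h2 + h3,
    ⟨(eA ⊗ᵢ eB) ≪≫ shiftRight _ _ l ≪≫ (shiftFunctor T l).mapIso (shiftLeft A B k) ≪≫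
      ((shiftFunctorAdd' T k l (k + l) (by lia)).app _).symm⟩⟩

/-- Every object is bounded for the closures. -/
lemma bounded_of_gen' {D : ℤ → ObjectProperty T} [∀ n, (D n).IsClosedUnderIsomorphisms]
    (hshift : ∀ (n a : ℤ) (X : T), D n X → D (n - a) (X⟦a⟧))
    (hgen : (Sorting.anyOf D).IsClassicalTriangulatedGenerator) (X : T) :
    ∃ b : ℤ, RC D (fun n => n ≤ b) X ∧ RC D (fun n => -b ≤ n) X := by
  have h1 : (Sorting.anyOf D).triangEnvelope X := by
    rw [isClassicalTriangulatedGenerator_iff] at hgen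
    rw [hgen]
    trivial
  have h2 := Sorting.U_retract_isTriangulated D hshift
  have h3 : (Sorting.anyOf D).triangEnvelope ≤ (Sorting.U D).retractClosure := by
    rw [triangEnvelope_le_iff]
    rintro G ⟨n, hn⟩
    refine le_retractClosure _ _ ⟨[n], ?_⟩
    rw [Sorting.E_single]
    exact hn
  obtain ⟨Y, ⟨l, hl⟩, hr⟩ := h3 X h1
  obtain ⟨b, hb⟩ : ∃ b : ℤ, ∀ a ∈ l, |a| ≤ b := by
    clear hl hr
    induction l with
    | nil => exact ⟨0, by simp⟩
    | cons a l ih =>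
      obtain ⟨b, hb⟩ := ih
      refine ⟨max |a| b, fun c hc => ?_⟩
      rcases List.mem_cons.1 hc with rfl | hc
      · exact le_max_left _ _
      · exact (hb c hc).trans (le_max_right _ _)
  refine ⟨b, ⟨Y, ⟨l, fun a ha => ?_, hl⟩, hr⟩, ⟨Y, ⟨l, fun a ha => ?_, hl⟩, hr⟩⟩
  · exact (le_abs_self a).trans (hb a ha)
  · have := hb a ha
    have := neg_abs_le a
    lia

/-- Existence of the t-structure with prescribed degrees. -/
theorem exists_t_of_vanishing [IsIdempotentComplete T] [S.IsStableUnderRetracts]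
    (hS : IsChowClass S) (hCK : ChowKunneth R S) (hnum : RatEqNumFromZero R S) {m : ℤ}
    (hm : 2 ≤ m) (hV : VanishingUpTo R S m)
    (hodd : ∀ A, S A → ∀ j, R.ConcentratedIn j A → ¬ Even (j * m) → IsZero A) :
    ∃ t : TStructure T, Nondegenerate t ∧ TensorCompatible t ∧
      ∀ c X, Dg R S m c X → t.IsLE X c ∧ t.IsGE X c := by
  have hgen := Dg_generates' hS hCK hodd
  have horth : ∀ {p q : ℤ → Prop} (_ : ∀ a b, p a → q b → a < b) {X Y : T}
      (_ : RC (Dg R S m) p X) (_ : RC (Dg R S m) q Y) (f : X ⟶ Y), f = 0 := by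
    intro p q hpq X Y hX hY f
    exact RC_orth (fun a b ha hb X Y hX hY f => Dg_orth hS hnum hV (hpq a b ha hb) hX hY f)
      hX hY f
  have hsh := fun (n a : ℤ) (X : T) (h : Dg R S m n X) => Dg_shift m n a X h
  let t : TStructure T :=
    { le := fun n => RC (Dg R S m) fun k => k ≤ n
      ge := fun n => RC (Dg R S m) fun k => n ≤ k
      le_isClosedUnderIsomorphisms := fun n => inferInstance
      ge_isClosedUnderIsomorphisms := fun n => inferInstance
      le_shift := fun n a n' h X hX => RC_shift hsh a (fun k hk => by lia) hX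
      ge_shift := fun n a n' h X hX => RC_shift hsh a (fun k hk => by lia) hX
      zero' := fun X Y f hX hY => horth (fun a b ha hb => by lia) hX hY f
      le_zero_le := fun X hX => RC_mono (fun k hk => by lia) hX
      ge_one_le := fun X hX => RC_mono (fun k hk => by lia) hX
      exists_triangle_zero_one := fun X => by
        have hX : (Sorting.anyOf (Dg R S m)).triangEnvelope X := by
          have h1 := hgen
          rw [isClassicalTriangulatedGenerator_iff] at h1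
          rw [h1]
          trivial
        obtain ⟨Y, r, hY⟩ := Sorting.exists_retract hsh (Dg_swap' hS hnum hm hV) hX
        obtain ⟨P, Q, a, b, c, hT, hP, hQ⟩ := hY (RC (Dg R S m) fun k => k ≤ 0)
          (RC (Dg R S m) fun k => 1 ≤ k) (RC_extClosed _) (RC_extClosed _) 0
          (fun a ha Z hZ => RC_of (fun k => k ≤ 0) a ha hZ)
          (fun a ha Z hZ => RC_of (fun k => 1 ≤ k) a (by lia) hZ)
        obtain ⟨A, B, f, g, h, hT', hA, hB⟩ := Realization.decomp_retract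
          (p := RC (Dg R S m) fun k => k ≤ 0) (q := RC (Dg R S m) fun k => 1 ≤ k)
          (fun r h => RC_retract r h) (fun r h => RC_retract r h) r hT
          (fun f => horth (fun a b ha hb => by lia) hP hQ f)
          (fun f => horth (fun a b ha hb => by lia) hP
            (RC_shift hsh (q := fun k => 1 ≤ k) (-1) (fun k hk => by lia) hQ) f) hP hQ
        exact ⟨A, B, hA, hB, f, g, h, hT'⟩ }
  refine ⟨t, ⟨?_, ?_⟩, ⟨?_, ?_⟩, ?_⟩
  · intro X hX
    obtain ⟨b, hb, hb'⟩ := bounded_of_gen' hsh hgen X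
    rw [IsZero.iff_id_eq_zero]
    exact horth (fun a c ha hc => by lia) (hX (-b - 1)) hb' _
  · intro X hX
    obtain ⟨b, hb, hb'⟩ := bounded_of_gen' hsh hgen X
    rw [IsZero.iff_id_eq_zero]
    exact horth (fun a c ha hc => by lia) hb (hX (b + 1)) _
  · intro X Y hX hY
    exact RC_tensor₂ (fun hc h1 h2 => Dg_tensor hS hc h1 h2) (fun a b ha hb => by lia) hX hY
  · intro X Y hX hY
    exact RC_tensor₂ (fun hc h1 h2 => Dg_tensor hS hc h1 h2) (fun a b ha hb => by lia) hX hY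
  · intro c X hX
    exact ⟨⟨RC_of (fun k => k ≤ c) c le_rfl hX⟩, ⟨RC_of (fun k => c ≤ k) c le_rfl hX⟩⟩

end Pool.Agent.Lib.MotT
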