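import Pool.Agent.Lib.MP_6d0ce9_ag.St.Pos
import Pool.Agent.Lib.MP_6d0ce9_ag.LefMain

/-!
# Objects whose classes have the level prescribed by their degree
-/

set_option linter.unusedSectionVars false

universe w v u

open CategoryTheory Category Limits MonoidalCategory Pretriangulated Triangulated
  ObjectProperty

namespace Pool.Agent.Lib.MotT

namespace Realization

variable {T : Type u} [Category.{v} T] [Preadditive T] [HasZeroObject T] [HasShift T ℤ]
  [∀ n : ℤ, (shiftFunctor T n).Additive] [Pretriangulated T] [IsTriangulated T]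
  [MonoidalCategory T] [SymmetricCategory T] [∀ X : T, (tensorLeft X).CommShift ℤ]
  [∀ X : T, (tensorLeft X).IsTriangulated] {F : Type w} [Field F] {R : Realization T F}
  {t : TStructure T}

variable (R t) in
/-- The classes in `H^i(X)` have level exactly `i m / 2`. -/
def Pl (m : ℤ) (X : T) : Prop := ∀ (i a : ℤ) (x : R.Hm i X),
  (2 * a < i * m → R.Lev t a i X x → x = 0) ∧ (i * m < 2 * a + 2 → R.Lev t a i X x)

lemma Pl.of_retract {m : ℤ} {X Y : T} (r : Retract X Y) (h : R.Pl t m Y) : R.Pl t m X := by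
  intro i a x
  have h1 : R.mp i r.r (R.mp i r.i x) = x := by
    rw [← mp_comp_apply, r.retract, mp_id, LinearMap.id_apply]
  refine ⟨fun ha hx => ?_, fun ha => ?_⟩
  · rw [← h1, (h i a _).1 ha (hx.map r.i), map_zero]
  · rw [← h1]
    exact ((h i a _).2 ha).map r.r

lemma Pl.of_iso {m : ℤ} {X Y : T} (e : X ≅ Y) (h : R.Pl t m Y) : R.Pl t m X :=
  h.of_retract e.retract

lemma Lev.zero (a m : ℤ) (M : T) : R.Lev t a m M 0 := by
  obtain ⟨A, B, f, g, δ, hT, hA, hB⟩ := exists_trunc t M a (a + 1) rfl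
  exact (lev_iff hT hA hB _).2 (map_zero _)

lemma Lev.add {a m : ℤ} {M : T} {x y : R.Hm m M} (hx : R.Lev t a m M x)
    (hy : R.Lev t a m M y) : R.Lev t a m M (x + y) := by
  obtain ⟨A, B, f, g, δ, hT, hA, hB⟩ := exists_trunc t M a (a + 1) rfl
  refine (lev_iff hT hA hB _).2 ?_
  rw [map_add, (lev_iff hT hA hB _).1 hx, (lev_iff hT hA hB _).1 hy, add_zero]

lemma Lev.smul {a m : ℤ} {M : T} {x : R.Hm m M} (c : F) (hx : R.Lev t a m M x) :
    R.Lev t a m M (c • x) := by
  obtain ⟨A, B, f, g, δ, hT, hA, hB⟩ := exists_trunc t M a (a + 1) rfl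
  refine (lev_iff hT hA hB _).2 ?_
  rw [map_smul, (lev_iff hT hA hB _).1 hx, smul_zero]

/-- an object with an inverse has nonzero cohomology -/
lemma exists_ne_zero_of_inverse {b : ℤ} {V V' : T} (e : V ⊗ V' ≅ 𝟙_ T)
    (hV : R.ConcentratedIn b V) : ∃ v : R.Hm b V, v ≠ 0 := by
  by_contra h3
  push Not at h3
  obtain ⟨c, hc⟩ := R.nontrivial_unit
  have h4 : R.Van 0 (V ⊗ V') := by
    refine R.van_tensor 0 V V' fun k => Or.inl ?_
    by_cases hk : k = b
    · subst hk
      exact ⟨fun x y => (h3 x).trans (h3 y).symm⟩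
    · exact hV k hk
  exact hc ((R.van_of_iso e h4).elim _ _)

/-- Tensoring with an invertible object of degree `b` and level `s`, `2 s = b m`. -/
lemma Pl.tensor (ht : TensorCompatible t) {m b s : ℤ} (hs : 2 * s = b * m) {X V V' : T}
    (e : V ⊗ V' ≅ 𝟙_ T) (hV : R.ConcentratedIn b V) (hV1 : t.IsLE V s) (hV2 : t.IsLE V' (-s))
    (hX : R.Pl t m X) : R.Pl t m (X ⊗ V) := by
  intro i a z
  refine ⟨fun ha hz => ?_, fun ha => ?_⟩
  · by_contra hz0
    have hV' : R.ConcentratedIn (-b) V' := conc_inverse e hV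
    obtain ⟨v', hv'⟩ := exists_ne_zero_of_inverse (β_ V' V ≪≫ e) hV'
    have h1 := hz.cup ht (rfl : i + -b = i + -b) hV2 v'
    have h2 := R.cup_ne_zero (rfl : i + -b = i + -b) hz0 hv'
    let e' : (X ⊗ V) ⊗ V' ≅ X := α_ X V V' ≪≫ whiskerLeftIso X e ≪≫ ρ_ X
    have h3 := h1.map e'.hom
    have h4 := (hX (i + -b) (a + -s) _).1 (by linarith) h3
    apply h2
    have h5 := congrArg (R.mp (i + -b) e'.inv) h4
    rwa [map_zero, ← mp_comp_apply, e'.hom_inv_id, mp_id, LinearMap.id_apply] at h5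
  · have h1 := R.cup_span (sub_add_cancel i b) X V (fun k hk => Or.inr (hV _ (by lia))) z
    induction h1 using Submodule.span_induction with
    | mem z hz =>
      obtain ⟨x, y, rfl⟩ := hz
      have h2 := ((hX (i - b) (a - s) x).2 (by linarith)).cup ht (sub_add_cancel i b) hV1 y
      rwa [sub_add_cancel] at h2
    | zero => exact Lev.zero _ _ _
    | add x y _ _ hx hy => exact hx.add hy
    | smul c x _ hx => exact hx.smul c

/-- The truncations of an object with the prescribed levels. -/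
lemma Pl.van [CharZero F] (hnd : Nondegenerate t) (ht : TensorCompatible t)
    (hrig : IsRigid T) (hcons : R.Conservative) {m : ℤ} {M : T} (hM : R.Pl t m M) {a : ℤ}
    {A B : T} {f : A ⟶ M} {g : M ⟶ B} {δ : B ⟶ A⟦(1 : ℤ)⟧}
    (hT : Triangle.mk f g δ ∈ distTriang T) (hA : t.IsLE A a) (hB : t.IsGE B (a + 1)) (i : ℤ) :
    (2 * a < i * m → R.Van i A) ∧ (i * m < 2 * a + 2 → R.Van i B) ∧
      (R.Van i M → R.Van i A ∧ R.Van i B) := by
  have hinj := fun m => trunc_injective (R := R) hnd ht hrig hcons m hT hA hB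
  have hsurj : ∀ z : R.Hm i B, ∃ y : R.Hm i M, R.mp i g y = z := by
    intro z
    have h1 : R.mp i δ z = 0 := by
      have h2 : δ ≫ f⟦(1 : ℤ)⟧' = 0 := comp_distTriang_mor_zero₃₁ _ hT
      have h3 : R.mp i (f⟦(1 : ℤ)⟧') (R.mp i δ z) = 0 := by
        rw [← mp_comp_apply, h2, mp_zero, LinearMap.zero_apply]
      exact mp_shift_injective rfl f (hinj (1 + i)) _ h3
    exact R.exact₃ hT i z h1
  refine ⟨fun hi => ?_, fun hi => ?_, fun hi => ⟨?_, ?_⟩⟩
  · have h0 : ∀ y : R.Hm i A, y = 0 := fun y => hinj i y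
      ((hM i a _).1 hi ⟨A, f, y, hA, rfl⟩)
    exact ⟨fun x y => (h0 x).trans (h0 y).symm⟩
  · have h0 : ∀ z : R.Hm i B, z = 0 := by
      intro z
      obtain ⟨y, rfl⟩ := hsurj z
      exact (lev_iff hT hA hB y).1 ((hM i a y).2 hi)
    exact ⟨fun x y => (h0 x).trans (h0 y).symm⟩
  · have h0 : ∀ y : R.Hm i A, y = 0 := fun y => hinj i y (hi.elim _ _)
    exact ⟨fun x y => (h0 x).trans (h0 y).symm⟩
  · have h0 : ∀ z : R.Hm i B, z = 0 := by
      intro z
      obtain ⟨y, rfl⟩ := hsurj z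
      rw [show y = 0 from hi.elim _ _, map_zero]
    exact ⟨fun x y => (h0 x).trans (h0 y).symm⟩

/-- An object with the prescribed levels concentrated in degree `j` is concentrated in one
degree for the t-structure. -/
lemma Pl.pure [CharZero F] (hnd : Nondegenerate t) (ht : TensorCompatible t)
    (hrig : IsRigid T) (hcons : R.Conservative) {m : ℤ} {M : T} (hM : R.Pl t m M) {j c : ℤ}
    (hj : R.ConcentratedIn j M) (hc1 : 2 * c ≤ j * m) (hc2 : j * m < 2 * c + 2) :
    t.IsLE M c ∧ t.IsGE M c := by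
  constructor
  · obtain ⟨A, B, f, g, δ, hT, hA, hB⟩ := exists_trunc t M c (c + 1) rfl
    have hB0 : IsZero B := hcons B fun i => by
      by_cases hi : i = j
      · subst hi
        exact (hM.van hnd ht hrig hcons hT hA hB i).2.1 hc2
      · exact ((hM.van hnd ht hrig hcons hT hA hB i).2.2 (hj i hi)).2
    have : IsIso f := (Triangle.isZero₃_iff_isIso₁ _ hT).1 hB0
    exact isLE_of_retract t (asIso f).symm.retract c hA
  · obtain ⟨A, B, f, g, δ, hT, hA, hB⟩ := exists_trunc t M (c - 1) c (by lia)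
    have hB' : t.IsGE B (c - 1 + 1) := by rwa [sub_add_cancel]
    have hA0 : IsZero A := hcons A fun i => by
      by_cases hi : i = j
      · subst hi
        exact (hM.van hnd ht hrig hcons hT hA hB' i).1 (by lia)
      · exact ((hM.van hnd ht hrig hcons hT hA hB' i).2.2 (hj i hi)).1
    have : IsIso g := (Triangle.isZero₁_iff_isIso₂ _ hT).1 hA0
    exact isGE_of_retract t (asIso g).retract c hB

end Realization

end Pool.Agent.Lib.MotT
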