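import Pool.Agent.Lib.MP_6d0ce9_ag.LefConv
import Pool.Agent.Lib.MP_6d0ce9_ag.St.Pos
import Pool.Agent.Lib.MP_6d0ce9_ag.St2.HeartF

/-!
# Nondegeneracy in the heart of any t-structure
-/

set_option linter.unusedSectionVars false

universe w v u

open CategoryTheory Category Limits MonoidalCategory Pretriangulated Triangulated

namespace Pool.Agent.Lib.MotT

namespace Realization

variable {T : Type u} [Category.{v} T] [Preadditive T] [HasZeroObject T] [HasShift T ℤ]
  [∀ n : ℤ, (shiftFunctor T n).Additive] [Pretriangulated T] [IsTriangulated T]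
  [MonoidalCategory T] [SymmetricCategory T] [∀ X : T, (tensorLeft X).CommShift ℤ]
  [∀ X : T, (tensorLeft X).IsTriangulated] {F : Type w} [Field F] {R : Realization T F}
  {t : TStructure T}

/-- A nonzero morphism from the unit object to a Chow motive which is concentrated in degree `0`
for the realisation and for a t-structure is detected numerically. -/
theorem detect_heart [IsIdempotentComplete T] [CharZero F] (hnd : Nondegenerate t)
    (ht : TensorCompatible t) (hrig : IsRigid T) (hcons : R.Conservative)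
    {S : ObjectProperty T} (hS : IsChowClass S) {A : T} (hA : S A)
    (h0 : R.ConcentratedIn 0 A) (hle : t.IsLE A 0) (hge : t.IsGE A 0)
    (f : 𝟙_ T ⟶ A) (hf0 : f ≠ 0) : ∃ g : A ⟶ 𝟙_ T, f ≫ g ≠ 0 := by
  have h1 : (𝟙 (𝟙_ T) : 𝟙_ T ⟶ 𝟙_ T) ≠ 0 := by
    intro h
    obtain ⟨c₀, hc₀⟩ := R.nontrivial_unit
    apply hc₀
    have h2 : R.mp 0 (𝟙 (𝟙_ T)) c₀ = 0 := by rw [h, R.mp_zero, LinearMap.zero_apply]
    rwa [R.mp_id] at h2
  obtain ⟨A', hA', ⟨hAA⟩⟩ := hS.dual A hA
  have hH' : R.ConcentratedIn 0 A' := by simpa using R.conc_dual h0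
  have hle' : t.IsLE A' 0 := by simpa using dual_le' hnd ht hge
  let s : A' ⟶ 𝟙_ T := ud f
  have hs : R.mp 0 s ≠ 0 := by
    intro h
    apply hf0
    apply ud_injective (A' := A')
    refine eq_zero_of_level hnd ht hrig hcons hle' (unit_mem hnd ht).2 s fun i => ?_
    by_cases hi : i = 0
    · subst hi
      exact h
    · ext x
      exact (R.unit_conc i hi).elim _ _
  obtain ⟨N, δ, ω, hN⟩ := distinguished_cocone_triangle s
  have hδ := tensorNilpotent_of_odd hcons (conc_cone_unit hH' hs hN) δ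
  obtain ⟨a, ha⟩ := exists_section (Q := S) hN (fun B hB => hS.pos B hB)
    (fun B hB => hS.tensor A' B hA' hB) hA' h1 hδ
  refine ⟨ud' a, ?_⟩
  rw [ud_comp]
  exact ha

end Realization

end Pool.Agent.Lib.MotT
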