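import Pool.Agent.Lib.MP_6d0ce9_ag.An.Defs
import Pool.Agent.Lib.MP_6d0ce9_ag.An.DecG
import Pool.Agent.Lib.MP_6d0ce9_ag.An.Deg
import Pool.Agent.Lib.MP_6d0ce9_ag.An.Num

/-!
# Any t-structure suffices, up to the conjecture of Beilinson and Soulé
-/

set_option linter.unusedSectionVars false

universe w v u

open CategoryTheory Category Limits MonoidalCategory Pretriangulated Triangulated
  ObjectProperty

namespace Pool.Agent.Lib.MotT

variable {T : Type u} [Category.{v} T] [Preadditive T] [HasZeroObject T] [HasShift T ℤ]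
  [∀ n : ℤ, (shiftFunctor T n).Additive] [Pretriangulated T] [IsTriangulated T]
  [MonoidalCategory T] [SymmetricCategory T] [∀ X : T, (tensorLeft X).CommShift ℤ]
  [∀ X : T, (tensorLeft X).IsTriangulated] {F : Type w} [Field F] {R : Realization T F}
  {t : TStructure T}

/-- The vanishing conjecture from nondegeneracy. -/
lemma beilinsonSoule_of_ratEqNum (hrig : IsRigid T) {S : ObjectProperty T} (hS : IsChowClass S)
    (h : RatEqNumUpTo R S) : BeilinsonSoule R S := by
  intro A hA j n hj hj0 hnj f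
  by_contra hf
  obtain ⟨g, hg⟩ := h A hA j n hj hnj f hf
  obtain ⟨A', hA', ⟨hAA⟩⟩ := hS.dual A hA
  obtain ⟨H', ⟨hHH⟩⟩ := hrig (A⟦n⟧)
  obtain ⟨e⟩ : Nonempty (H' ≅ A'⟦-n⟧) := dual_shift hrig (A := A) n
  let _ : ExactPairing H' (A⟦n⟧) := BraidedCategory.exactPairing_swap (A⟦n⟧) H'
  have h1 : (tr' g : 𝟙_ T ⟶ H') ≫ e.hom = 0 := hS.pos A' hA' (-n) (by lia) _
  have h2 : (tr' g : 𝟙_ T ⟶ H') = 0 := by
    rw [← cancel_mono e.hom, h1, zero_comp]
  exact hg (by rw [tr'_injective g h2, comp_zero])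

/-- The consequences of the existence of any t-structure. -/
theorem of_any [IsIdempotentComplete T] [CharZero F] (hnd : Nondegenerate t)
    (ht : TensorCompatible t) (hrig : IsRigid T) (hcons : R.Conservative) {W W' : T}
    (e : W ⊗ W' ≅ 𝟙_ T) (hW : R.ConcentratedIn (-2) W) (u : 𝟙_ T ⟶ W⟦(-1 : ℤ)⟧) (hu : u ≠ 0)
    {S : ObjectProperty T} (hS : IsChowClass S) [S.IsStableUnderRetracts]
    (hpol : PolarisedGenerated R W S) : ChowKunneth R S ∧ RatEqNumFromZero R S := by
  obtain ⟨s, h1, h2, h3, -⟩ := Realization.exists_degree hnd ht hrig hcons e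
  obtain ⟨m, rfl⟩ : ∃ m : ℤ, s = -m := ⟨-s, by ring⟩
  rw [neg_neg] at h3
  have hm := Realization.two_le_of_unit hnd ht hrig hcons hW h2 u hu
  have hGd : ∀ A, S A → R.Gd t m A := by
    intro A hA
    obtain ⟨M, k, l, hM, ⟨r⟩⟩ := hpol A hA
    exact Realization.gd_of_retract hnd ht hrig hcons hm e hW h1 h2 h3 hM r
  constructor
  · intro A hA
    obtain ⟨b, hb⟩ := R.bounded A
    obtain ⟨n, C, hC, hiso⟩ := Realization.dec_of_kpl hnd ht hrig hcons (m := m) A
      (-(b.toNat : ℤ)) (2 * b.toNat + 1) A ⟨Retract.refl A⟩ (hGd A hA).2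
      (fun i hi => hb i (by
        have h1 := Int.self_le_toNat b
        rcases hi with hi | hi
        · rw [abs_of_neg (by lia)]
          lia
        · push_cast at hi
          rw [abs_of_pos (by lia)]
          lia))
    refine ⟨n, C, fun j => ?_, hiso⟩
    obtain ⟨⟨r'⟩, h2⟩ := hC j
    exact ⟨prop_of_retract _ r' hA, h2⟩
  · intro A hA j n hj hj0 hnj f hf
    obtain ⟨c, hc1, hc2⟩ : ∃ c : ℤ, 2 * c ≤ j * m ∧ j * m < 2 * c + 2 :=
      ⟨j * m / 2, by lia, by lia⟩
    obtain ⟨h4, h5⟩ := (hGd A hA).1.pure hnd ht hrig hcons hj hc1 hc2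
    have hcj : j ≤ c := by nlinarith
    have hn : n ≤ 0 := by
      by_contra hn
      exact hf (hS.pos A hA n (by lia) f)
    have hcn : c ≤ n := by
      by_contra hcn
      apply hf
      have h6 : t.IsGE (A⟦n⟧) (c - n) := t.isGE_shift A c n (c - n) (by lia)
      exact t.zero_of_isLE_of_isGE f 0 (c - n) (by lia) (unit_mem hnd ht).1 h6
    obtain rfl : n = 0 := by lia
    obtain rfl : j = 0 := by lia
    obtain rfl : c = 0 := by lia
    obtain ⟨g, hg⟩ := Realization.detect_heart hnd ht hrig hcons hS hA hj h4 h5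
      (f ≫ ((shiftFunctorZero T ℤ).app A).hom) (fun h => hf (by
        rw [← cancel_mono ((shiftFunctorZero T ℤ).app A).hom, h, zero_comp]))
    exact ⟨((shiftFunctorZero T ℤ).app A).hom ≫ g, by rwa [← assoc]⟩

lemma ratEqNumUpTo_iff {S : ObjectProperty T} (h : RatEqNumFromZero R S)
    (h' : BeilinsonSoule R S) : RatEqNumUpTo R S := by
  intro A hA j n hj hnj f hf
  rcases lt_or_ge j 0 with hj0 | hj0
  · exact absurd (h' A hA j n hj hj0 hnj f) hf
  · exact h A hA j n hj hj0 hnj f hf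

end Pool.Agent.Lib.MotT
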