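import Pool.Agent.Lib.MP_6d0ce9_ag.SS.Semi
import Pool.Agent.Lib.MP_6d0ce9_ag.Sort

/-!
# Extensions whose class is split, and quasi-inverses for morphisms between Chow motives
-/

set_option linter.unusedSectionVars false

universe w v u

open CategoryTheory Category Limits MonoidalCategory Pretriangulated Triangulated
  ObjectProperty

namespace Pool.Agent.Lib.MotT

section

variable {T : Type u} [Category.{v} T] [Preadditive T] [HasZeroObject T] [HasShift T ℤ]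
  [∀ n : ℤ, (shiftFunctor T n).Additive] [Pretriangulated T]

/-- If the class `δ` of an extension of `B` by `A` has a quasi-inverse then the extension is
the sum of a direct summand of `B` and a direct summand of `A`. -/
lemma swap_of_split [IsIdempotentComplete T] {A X B : T} {f : A ⟶ X} {g : X ⟶ B}
    {δ : B ⟶ A⟦(1 : ℤ)⟧} (hT : Triangle.mk f g δ ∈ distTriang T) (s : A⟦(1 : ℤ)⟧ ⟶ B)
    (hs : δ ≫ s ≫ δ = δ) :
    ∃ K C : T, Nonempty (Retract K B) ∧ Nonempty (Retract C A) ∧ Nonempty (X ≅ K ⊞ C) := by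
  -- the summand of `B`
  have hp : (𝟙 B - δ ≫ s) ≫ (𝟙 B - δ ≫ s) = 𝟙 B - δ ≫ s := by
    have h1 : (δ ≫ s) ≫ (δ ≫ s) = δ ≫ s := by
      calc (δ ≫ s) ≫ (δ ≫ s) = (δ ≫ s ≫ δ) ≫ s := by simp only [assoc]
        _ = δ ≫ s := by rw [hs]
    rw [Preadditive.sub_comp, Preadditive.comp_sub, Preadditive.comp_sub, h1, id_comp, comp_id,
      id_comp]
    abel
  obtain ⟨K, i, r, hir, hri⟩ := IsIdempotentComplete.idempotents_split B _ hp
  have hiδ : i ≫ δ = 0 := by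
    have h1 : i = i ≫ (𝟙 B - δ ≫ s) := by rw [← hri, ← assoc, hir, id_comp]
    rw [h1, assoc, Preadditive.sub_comp, id_comp, assoc, hs, sub_self, comp_zero]
  obtain ⟨i', hi'⟩ : ∃ i' : K ⟶ X, i = i' ≫ g := Triangle.coyoneda_exact₃ _ hT i hiδ
  -- the summand of `A`
  obtain ⟨e, he⟩ := (shiftFunctor T (1 : ℤ)).map_surjective (s ≫ δ)
  have hee : e ≫ e = e := by
    apply (shiftFunctor T (1 : ℤ)).map_injective
    rw [Functor.map_comp, he, assoc, hs]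
  have hef : e ≫ f = 0 := by
    apply (shiftFunctor T (1 : ℤ)).map_injective
    have h1 : δ ≫ f⟦(1 : ℤ)⟧' = 0 := comp_distTriang_mor_zero₃₁ _ hT
    rw [Functor.map_comp, he, assoc, h1, comp_zero, Functor.map_zero]
  have hker : ∀ {Z : T} (y : Z ⟶ A), y ≫ f = 0 → y ≫ e = y := by
    intro Z y hy
    apply (shiftFunctor T (1 : ℤ)).map_injective
    have h1 : y⟦(1 : ℤ)⟧' ≫ f⟦(1 : ℤ)⟧' = 0 := by
      rw [← Functor.map_comp, hy, Functor.map_zero]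
    obtain ⟨w, hw⟩ : ∃ w : Z⟦(1 : ℤ)⟧ ⟶ B, y⟦(1 : ℤ)⟧' = w ≫ δ :=
      Triangle.coyoneda_exact₁ _ hT _ h1
    rw [Functor.map_comp, he, hw, assoc, hs]
  have hq : (𝟙 A - e) ≫ (𝟙 A - e) = 𝟙 A - e := by
    rw [Preadditive.sub_comp, Preadditive.comp_sub, Preadditive.comp_sub, hee, id_comp, comp_id,
      id_comp]
    abel
  obtain ⟨C, j, r', hjr, hrj⟩ := IsIdempotentComplete.idempotents_split A _ hq
  have her : e ≫ r' = 0 := by
    have h1 : r' = (𝟙 A - e) ≫ r' := by rw [← hrj, assoc, hjr, comp_id]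
    rw [h1, ← assoc, Preadditive.comp_sub, comp_id, hee, sub_self, zero_comp]
  refine ⟨K, C, ⟨⟨i, r, hir⟩⟩, ⟨⟨j, r', hjr⟩⟩, ?_⟩
  let φ : K ⊞ C ⟶ X := biprod.desc i' (j ≫ f)
  have hfg : f ≫ g = 0 := comp_distTriang_mor_zero₁₂ _ hT
  have hmono : Mono φ := by
    apply Preadditive.mono_of_cancel_zero
    intro Z h hh
    have h1 : (h ≫ biprod.fst) ≫ i' + (h ≫ biprod.snd) ≫ j ≫ f = 0 := by
      rw [← hh]
      change _ = h ≫ biprod.desc i' (j ≫ f)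
      rw [biprod.desc_eq, Preadditive.comp_add]
      simp only [assoc]
    have h2 : h ≫ (biprod.fst : K ⊞ C ⟶ K) = 0 := by
      have h3 := congrArg (fun z => z ≫ g) h1
      simp only [Preadditive.add_comp, assoc, hfg, comp_zero, add_zero, zero_comp] at h3
      rw [← hi'] at h3
      have h4 := congrArg (fun z => z ≫ r) h3
      simpa only [assoc, hir, comp_id, zero_comp] using h4
    have h5 : h ≫ (biprod.snd : K ⊞ C ⟶ C) = 0 := by
      rw [h2, zero_comp, zero_add, ← assoc] at h1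
      have h6 := hker _ h1
      have h7 := congrArg (fun z => z ≫ r') h6
      simpa only [assoc, her, comp_zero, hjr, comp_id] using h7.symm
    apply biprod.hom_ext
    · rw [h2, zero_comp]
    · rw [h5, zero_comp]
  obtain ⟨y, hy⟩ : ∃ y : X ⟶ A, 𝟙 X - g ≫ r ≫ i' = y ≫ f := by
    refine Triangle.coyoneda_exact₂ _ hT _ ?_
    change (𝟙 X - g ≫ r ≫ i') ≫ g = 0
    have hgδ : g ≫ δ = 0 := comp_distTriang_mor_zero₂₃ _ hT
    rw [Preadditive.sub_comp, id_comp, assoc, assoc, ← hi', hri, Preadditive.comp_sub, comp_id,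
      ← assoc, hgδ, zero_comp, sub_zero, sub_self]
  have hψ : biprod.lift (g ≫ r) (y ≫ r') ≫ φ = 𝟙 X := by
    change biprod.lift (g ≫ r) (y ≫ r') ≫ biprod.desc i' (j ≫ f) = 𝟙 X
    have h1 : (y ≫ r') ≫ j ≫ f = y ≫ f := by
      have h2 : (y ≫ r') ≫ j ≫ f = y ≫ (r' ≫ j) ≫ f := by simp only [assoc]
      rw [h2, hrj, Preadditive.sub_comp, id_comp, hef, sub_zero]
    rw [biprod.lift_desc, h1, ← hy, assoc]
    abel
  have hepi : biprod.lift (g ≫ r) (y ≫ r') ≫ φ = 𝟙 X := hψ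
  exact ⟨⟨biprod.lift (g ≫ r) (y ≫ r'), φ, hψ, by
    rw [← cancel_mono φ, assoc, hψ, comp_id, id_comp]⟩⟩

end

section

variable {T : Type u} [Category.{v} T] [Preadditive T] [HasZeroObject T] [HasShift T ℤ]
  [∀ n : ℤ, (shiftFunctor T n).Additive] [Pretriangulated T] [MonoidalCategory T]
  [SymmetricCategory T] [∀ X : T, (tensorLeft X).CommShift ℤ]
  [∀ X : T, (tensorLeft X).IsTriangulated]
  {F : Type w} [Field F] (R : Realization T F)

include R in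
/-- the pairing `Hom(𝟙, M) × Hom(M, 𝟙) → End(𝟙)` is perfect if it is nondegenerate -/
lemma perf_of_nondeg (hD : ∀ a : 𝟙_ T ⟶ 𝟙_ T, a ≠ 0 → IsIso a) {M M' : T}
    [ExactPairing M M'] (h : ∀ f : 𝟙_ T ⟶ M, f ≠ 0 → ∃ g : M ⟶ 𝟙_ T, f ≫ g ≠ 0)
    (h' : ∀ f : 𝟙_ T ⟶ M', f ≠ 0 → ∃ g : M' ⟶ 𝟙_ T, f ≫ g ≠ 0) :
    Perf.Inj (𝟙_ T) M ∧ Perf.Surj (𝟙_ T) M := by
  classical
  obtain ⟨c₀, hc₀⟩ := R.nontrivial_unit
  have h1 : (𝟙 (𝟙_ T) : 𝟙_ T ⟶ 𝟙_ T) ≠ 0 := by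
    intro h
    apply hc₀
    have h2 : R.mp 0 (𝟙 (𝟙_ T)) c₀ = 0 := by rw [h, R.mp_zero, LinearMap.zero_apply]
    rwa [R.mp_id] at h2
  have hnt : Nontrivial (End (𝟙_ T))ᵐᵒᵖ :=
    ⟨⟨1, 0, fun h => h1 (congrArg MulOpposite.unop h)⟩⟩
  have hD' : ∀ a : (End (𝟙_ T))ᵐᵒᵖ, IsUnit a ∨ a = 0 := by
    intro a
    by_cases ha : a = 0
    · exact Or.inr ha
    · left
      have h2 : IsIso (a.unop : 𝟙_ T ⟶ 𝟙_ T) := hD _ fun h => ha (MulOpposite.unop_injective h)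
      rw [← isUnit_unop]
      exact (isUnit_iff_isIso _).2 h2
  have hfin : ∀ s : Finset (𝟙_ T ⟶ M),
      (LinearIndepOn (End (𝟙_ T))ᵐᵒᵖ id (s : Set (𝟙_ T ⟶ M))) →
        s.card ≤ Module.finrank F (R.Hm 0 M) := by
    intro s hs
    obtain ⟨c, hc⟩ := Perf.exists_dual hD h s hs
    have hfi : Module.Finite F (R.Hm 0 M) := R.finite 0 M
    have h2 : LinearIndependent F (fun x : s => R.mp 0 (x : 𝟙_ T ⟶ M) c₀) := by
      rw [Fintype.linearIndependent_iff]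
      intro a ha y
      have h3 := congrArg (R.mp 0 (c y)) ha
      rw [map_zero, map_sum, Finset.sum_eq_single y] at h3
      · rw [map_smul, ← R.mp_comp_apply, hc y y.2 y y.2, if_pos rfl, R.mp_id,
          LinearMap.id_apply, smul_eq_zero] at h3
        exact h3.resolve_right hc₀
      · intro x _ hxy
        rw [map_smul, ← R.mp_comp_apply, hc x x.2 y y.2,
          if_neg (fun h => hxy (Subtype.ext h)), R.mp_zero, LinearMap.zero_apply, smul_zero]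
      · intro h
        exact absurd (Finset.mem_univ y) h
    have h4 := h2.fintype_card_le_finrank
    rwa [Fintype.card_coe] at h4
  refine ⟨?_, Perf.surj_of_nondeg hD hD' h _ hfin⟩
  intro g hg
  by_contra hne
  have h2 : (tr g : 𝟙_ T ⟶ 𝟙_ T ⊗ M') ≫ (λ_ M').hom ≠ 0 := by
    intro h0
    apply hne
    apply tr_injective (A' := M')
    rw [← cancel_mono (λ_ M').hom, h0, zero_comp]
  obtain ⟨k, hk⟩ := h' _ h2
  apply hk
  rw [assoc, tr_comp, hg]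

include R in
/-- Perfect pairings give quasi-inverses. -/
theorem exists_quasi_inverse (hD : ∀ a : 𝟙_ T ⟶ 𝟙_ T, a ≠ 0 → IsIso a) {X Y X' Y' : T}
    [ExactPairing X X'] [ExactPairing Y Y'] (hI : Perf.Inj (𝟙_ T) (X ⊗ Y'))
    (hS : Perf.Surj (𝟙_ T) (Y ⊗ X')) (f : X ⟶ Y) : ∃ g : Y ⟶ X, f ≫ g ≫ f = f := by
  obtain ⟨f', hf'⟩ := ss_transpose (X' := X') (Y' := Y') f
  obtain ⟨c₀, hc₀⟩ := R.nontrivial_unit
  have h1 : (𝟙 (𝟙_ T) : 𝟙_ T ⟶ 𝟙_ T) ≠ 0 := by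
    intro h
    apply hc₀
    have h2 : R.mp 0 (𝟙 (𝟙_ T)) c₀ = 0 := by rw [h, R.mp_zero, LinearMap.zero_apply]
    rwa [R.mp_id] at h2
  have hnt : Nontrivial (End (𝟙_ T))ᵐᵒᵖ :=
    ⟨⟨1, 0, fun h => h1 (congrArg MulOpposite.unop h)⟩⟩
  have hD' : ∀ a : (End (𝟙_ T))ᵐᵒᵖ, IsUnit a ∨ a = 0 := by
    intro a
    by_cases ha : a = 0
    · exact Or.inr ha
    · left
      have h2 : IsIso (a.unop : 𝟙_ T ⟶ 𝟙_ T) :=
        hD _ fun h => ha (MulOpposite.unop_injective h)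
      rw [← isUnit_unop]
      exact (isUnit_iff_isIso _).2 h2
  -- the name of `f` comes from the unit
  obtain ⟨u, hu⟩ : ∃ u : 𝟙_ T ⟶ X ⊗ Y', u ≫ (f ⊗ₘ f') = η_ X X' ≫ f ▷ X' := by
    by_contra hcon
    let N := LinearMap.range (Perf.post (𝟙_ T) (f ⊗ₘ f'))
    have hne : N.mkQ (η_ X X' ≫ f ▷ X') ≠ 0 := by
      intro h0
      rw [Submodule.mkQ_apply, Submodule.Quotient.mk_eq_zero] at h0
      obtain ⟨u, hu⟩ := h0
      exact hcon ⟨u, hu⟩
    obtain ⟨k, hk⟩ := Perf.exists_form hD' hne h1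
    obtain ⟨h, hh⟩ := hS (k.comp N.mkQ)
    have h3 : (f ⊗ₘ f') ≫ h = 0 := by
      apply hI
      intro u
      rw [← assoc, ← hh, LinearMap.comp_apply]
      have h4 : N.mkQ (u ≫ (f ⊗ₘ f')) = 0 := by
        rw [Submodule.mkQ_apply, Submodule.Quotient.mk_eq_zero]
        exact ⟨u, rfl⟩
      rw [h4, map_zero]
    have h5 : (η_ X X' ≫ f ▷ X') ≫ h ≠ 0 := by
      rw [← hh]
      exact hk
    have hiso := hD _ h5
    let c := R.inc 0 (𝟙_ T) c₀
    have hc : c ≠ 0 := fun h0 => hc₀ (R.inc_injective 0 _ (by rw [map_zero]; exact h0))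
    obtain ⟨w, hw⟩ := ss_tot R f f' (R.tmap (η_ X X') c) (R.tmap (η_ Y Y') c)
      (by rw [← R.tmap_comp_apply, ← R.tmap_comp_apply, hf'])
    have h6 : R.tmap ((η_ X X' ≫ f ▷ X') ≫ h) c = 0 := by
      rw [R.tmap_comp_apply, R.tmap_comp_apply, ← hw, ← R.tmap_comp_apply, h3, R.tmap_zero,
        LinearMap.zero_apply]
    apply hc
    have h7 : R.tmap (((η_ X X' ≫ f ▷ X') ≫ h) ≫ inv ((η_ X X' ≫ f ▷ X') ≫ h)) c = c := by
      rw [IsIso.hom_inv_id, R.tmap_id, LinearMap.id_apply]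
    rw [← h7, R.tmap_comp_apply, h6, map_zero]
  obtain ⟨g, rfl⟩ := ss_name (Y := Y) (Y' := Y') u
  refine ⟨g, ?_⟩
  have h8 : η_ X X' ≫ (f ≫ g ≫ f) ▷ X' = η_ X X' ≫ f ▷ X' := by
    rw [← hu, comp_whiskerRight, ← assoc, ← hf', assoc, assoc, whisker_exchange,
      MonoidalCategory.tensorHom_def, comp_whiskerRight, assoc]
  have h9 : f ≫ g ≫ f - f = 0 := by
    apply tr_injective (A' := X')
    rw [tr]
    have h10 : (f ≫ g ≫ f - f) ▷ X' = (f ≫ g ≫ f) ▷ X' - f ▷ X' :=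
      (tensorRight X').map_sub (f := f ≫ g ≫ f) (g := f)
    rw [h10, Preadditive.comp_sub, h8, sub_self]
  exact sub_eq_zero.1 h9

end

end Pool.Agent.Lib.MotT
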