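import Pool.Agent.Lib.MP_6d0ce9_ag.An.Main
import Pool.Agent.Lib.MP_6d0ce9_ag.An.Split
import Pool.Agent.Lib.MP_6d0ce9_ag.St.Uniq

/-!
# A t-structure is determined by the degree of `W`
-/

set_option linter.unusedSectionVars false

universe w v u

open CategoryTheory Category Limits MonoidalCategory Pretriangulated Triangulated
  ObjectProperty
open scoped ZeroObject

namespace Pool.Agent.Lib.MotT

variable {T : Type u} [Category.{v} T] [Preadditive T] [HasZeroObject T] [HasShift T ℤ]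
  [∀ n : ℤ, (shiftFunctor T n).Additive] [Pretriangulated T] [IsTriangulated T]
  [MonoidalCategory T] [SymmetricCategory T] [∀ X : T, (tensorLeft X).CommShift ℤ]
  [∀ X : T, (tensorLeft X).IsTriangulated] {F : Type w} [Field F] {R : Realization T F}
  {t t' : TStructure T} {S : ObjectProperty T}

/-- All objects of `S` have the prescribed levels and Künneth projectors. -/
lemma gd_of_mem [IsIdempotentComplete T] [CharZero F] (hnd : Nondegenerate t)
    (ht : TensorCompatible t) (hrig : IsRigid T) (hcons : R.Conservative) {W W' : T}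
    (e : W ⊗ W' ≅ 𝟙_ T) (hW : R.ConcentratedIn (-2) W) {m : ℤ} (hm : 2 ≤ m)
    (h1 : t.IsLE W (-m)) (h2 : t.IsGE W (-m)) (hpol : PolarisedGenerated R W S) :
    ∀ A, S A → R.Gd t m A := by
  have hinv : t.IsLE W' m := by
    obtain ⟨s, h3, h4, h5, -⟩ := Realization.exists_degree hnd ht hrig hcons e
    obtain rfl : s = -m := by
      have hW0 : ¬ IsZero W := by
        intro h0
        obtain ⟨v, hv⟩ := Realization.exists_ne_zero_of_inverse e hW
        exact hv ((R.van_of_isZero h0 (-2)).elim _ _)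
      by_contra hne
      apply hW0
      rw [IsZero.iff_id_eq_zero]
      rcases lt_or_gt_of_ne hne with h | h
      · exact t.zero_of_isLE_of_isGE _ _ _ h h3 h2
      · exact t.zero_of_isLE_of_isGE _ _ _ h h1 h4
    rwa [neg_neg] at h5
  intro A hA
  obtain ⟨M, k, l, hM, ⟨r⟩⟩ := hpol A hA
  exact Realization.gd_of_retract hnd ht hrig hcons hm e hW h1 h2 hinv hM r

lemma chowKunneth_of_gd [IsIdempotentComplete T] [CharZero F] (hnd : Nondegenerate t)
    (ht : TensorCompatible t) (hrig : IsRigid T) (hcons : R.Conservative) {m : ℤ}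
    [S.IsStableUnderRetracts] (hGd : ∀ A, S A → R.Gd t m A) : ChowKunneth R S := by
  intro A hA
  obtain ⟨b, hb⟩ := R.bounded A
  obtain ⟨n, C, hC, hiso⟩ := Realization.dec_of_kpl hnd ht hrig hcons (m := m) A
    (-(b.toNat : ℤ)) (2 * b.toNat + 1) A ⟨Retract.refl A⟩ (hGd A hA).2
    (fun i hi => hb i (by
      have h1 := Int.self_le_toNat b
      rcases hi with hi | hi
      · rw [abs_of_neg (by lia)]
        lia
      · push_cast at hi
        rw [abs_of_pos (by lia)]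
        lia))
  refine ⟨n, C, fun j => ?_, hiso⟩
  obtain ⟨⟨r'⟩, h2⟩ := hC j
  exact ⟨prop_of_retract _ r' hA, h2⟩

variable (R S) in
/-- the shifts of objects of `S` of pure degree, according to the prescribed degree for the
t-structure -/
def Dg (m c : ℤ) : ObjectProperty T := fun X =>
  ∃ (A : T) (j k : ℤ), S A ∧ R.ConcentratedIn j A ∧ 2 * c = j * m - 2 * k ∧ Nonempty (X ≅ A⟦k⟧)

instance (m c : ℤ) : (Dg R S m c).IsClosedUnderIsomorphisms where
  of_iso e h := by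
    obtain ⟨A, j, k, h1, h2, h3, ⟨e'⟩⟩ := h
    exact ⟨A, j, k, h1, h2, h3, ⟨e.symm ≪≫ e'⟩⟩

lemma Dg_shift (m : ℤ) (n a : ℤ) (X : T) (h : Dg R S m n X) : Dg R S m (n - a) (X⟦a⟧) := by
  obtain ⟨A, j, k, h1, h2, h3, ⟨e⟩⟩ := h
  exact ⟨A, j, k + a, h1, h2, by linarith,
    ⟨(shiftFunctor T a).mapIso e ≪≫ ((shiftFunctorAdd' T k a (k + a) rfl).app A).symm⟩⟩

lemma Dg_retract [S.IsStableUnderRetracts] {m c : ℤ} {X Y : T} (r : Retract X Y)
    (h : Dg R S m c Y) : Dg R S m c X := by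
  obtain ⟨A, j, k, h1, h2, h3, ⟨e⟩⟩ := h
  have r' : Retract (X⟦-k⟧) A := (r.map (shiftFunctor T (-k))).trans
    ((shiftFunctor T (-k)).mapIso e ≪≫ shiftShiftNeg A k).retract
  exact ⟨X⟦-k⟧, j, k, prop_of_retract _ r' h1, fun i hi => R.van_of_retract r' (h2 i hi), h3,
    ⟨(shiftNegShift X k).symm⟩⟩

section

variable [CharZero F] (hnd : Nondegenerate t) (ht : TensorCompatible t) (hrig : IsRigid T)
  (hcons : R.Conservative) {m : ℤ} (hGd : ∀ A, S A → R.Gd t m A)

include hnd ht hrig hcons hGd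

/-- The objects of `Dg` are in the right degree. -/
lemma Dg_degree {c : ℤ} {X : T} (h : Dg R S m c X) : t.IsLE X c ∧ t.IsGE X c := by
  obtain ⟨A, j, k, h1, h2, h3, ⟨e⟩⟩ := h
  obtain ⟨h4, h5⟩ := (hGd A h1).1.pure hnd ht hrig hcons h2 (c := c + k) (by linarith)
    (by linarith)
  have h6 := t.isLE_shift A (c + k) k c (by lia)
  have h7 := t.isGE_shift A (c + k) k c (by lia)
  exact ⟨t.isLE_of_iso e.symm c, t.isGE_of_iso e.symm c⟩

/-- An object of `S` in odd degree is zero if `m` is odd. -/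
lemma isZero_of_odd (hS : IsChowClass S) {A : T} (hA : S A) {j : ℤ}
    (hj : R.ConcentratedIn j A) (hjm : ¬ Even (j * m)) : IsZero A := by
  rw [Int.not_even_iff_odd] at hjm
  obtain ⟨c, hc⟩ := hjm
  obtain ⟨h1, h2⟩ := (hGd A hA).1.pure hnd ht hrig hcons hj (c := c) (by lia) (by lia)
  obtain ⟨h3, h4⟩ := (hGd _ (hS.tensor A A hA hA)).1.pure hnd ht hrig hcons
    (R.conc_tensor (rfl : j + j = j + j) hj hj) (c := 2 * c + 1)
    (by linear_combination (-2) * hc) (by linarith)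
  have h5 := le_tensor ht h1 h1
  have h6 : IsZero (A ⊗ A) := by
    rw [IsZero.iff_id_eq_zero]
    exact t.zero_of_isLE_of_isGE _ (c + c) (2 * c + 1) (by lia) h5 h4
  have h7 : R.dm (A ⊗ A) = 0 := (R.dm_eq_zero_iff _).2 fun i => R.van_of_isZero h6 i
  rw [Realization.dm_tensor, mul_self_eq_zero] at h7
  exact hcons A ((R.dm_eq_zero_iff A).1 h7)

lemma Dg_generates [S.IsStableUnderRetracts] (hS : IsChowClass S) (hCK : ChowKunneth R S) :
    (Sorting.anyOf (Dg R S m)).IsClassicalTriangulatedGenerator := by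
  obtain ⟨Q, hQ⟩ : ∃ Q : ObjectProperty T, Q = Sorting.anyOf (Dg R S m) := ⟨_, rfl⟩
  rw [← hQ]
  have hu : ∀ G, S G → ∀ d, R.ConcentratedIn d G → Q G := by
    intro G hG d hd
    rw [hQ]
    by_cases h : Even (d * m)
    · obtain ⟨c, hc⟩ := h
      exact ⟨c, G, d, 0, hG, hd, by linarith, ⟨((shiftFunctorZero T ℤ).app G).symm⟩⟩
    · have h0 := isZero_of_odd hnd ht hrig hcons hGd hS hG hd h
      exact ⟨0, G, 0, 0, hG, fun i _ => R.van_of_isZero h0 i, by ring,
        ⟨((shiftFunctorZero T ℤ).app G).symm⟩⟩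
  have hne : Q.Nonempty := ⟨𝟙_ T, hu _ hS.unit 0 R.unit_conc⟩
  have h := hS.generates
  rw [isClassicalTriangulatedGenerator_iff, eq_top_iff] at h ⊢
  refine h.trans ((triangEnvelope_le_iff _).2 ?_)
  intro G hG
  obtain ⟨n, B, hB, ⟨e⟩⟩ := hCK G hG
  refine Q.triangEnvelope.prop_of_iso ((biproduct.isoProduct B).symm ≪≫ e.symm : ∏ᶜ B ≅ G)
    (prop_product _ fun j => ?_)
  obtain ⟨h1, d, h2⟩ := hB j
  exact Q.le_triangEnvelope _ (hu _ h1 d h2)

/-- Morphisms between objects of `S` of the same degree have quasi-inverses. -/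
lemma quasi_inverse [IsIdempotentComplete T] (hS : IsChowClass S) {A B : T} (hA : S A)
    (hB : S B) {j : ℤ} (hAj : R.ConcentratedIn j A) (hBj : R.ConcentratedIn j B) (f : B ⟶ A) :
    ∃ g : A ⟶ B, f ≫ g ≫ f = f := by
  obtain ⟨A', hA', ⟨_⟩⟩ := hS.dual A hA
  obtain ⟨B', hB', ⟨_⟩⟩ := hS.dual B hB
  have key : ∀ C : T, S C → R.ConcentratedIn 0 C → ∀ f : 𝟙_ T ⟶ C, f ≠ 0 →
      ∃ g : C ⟶ 𝟙_ T, f ≫ g ≠ 0 := by
    intro C hC hC0 f hf
    obtain ⟨h1, h2⟩ := (hGd C hC).1.pure hnd ht hrig hcons hC0 (c := 0) (by lia) (by lia)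
    exact Realization.detect_heart hnd ht hrig hcons hS hC hC0 h1 h2 f hf
  have key' : ∀ C : T, S C → R.ConcentratedIn 0 C → Perf.Inj (𝟙_ T) C ∧ Perf.Surj (𝟙_ T) C := by
    intro C hC hC0
    obtain ⟨C', hC', ⟨_⟩⟩ := hS.dual C hC
    have hC0' : R.ConcentratedIn 0 C' := by simpa using R.conc_dual hC0
    exact perf_of_nondeg R hS.field (key C hC hC0) (key C' hC' hC0')
  exact exists_quasi_inverse R hS.field
    (key' _ (hS.tensor B A' hB hA')
      (R.conc_tensor (by ring) hBj (R.conc_dual hAj))).1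
    (key' _ (hS.tensor A B' hA hB')
      (R.conc_tensor (by ring) hAj (R.conc_dual hBj))).2 f

/-- Extensions can be swapped. -/
lemma Dg_swap [IsIdempotentComplete T] [S.IsStableUnderRetracts] (hm : 3 ≤ m)
    (hS : IsChowClass S) (a b : ℤ) (h : b < a) :
    extensionProduct (Dg R S m a) (Dg R S m b) ≤
      extensionProduct (Dg R S m b) (Dg R S m a) := by
  rintro X ⟨A, B, f, g, δ, hT, hA, hB⟩
  obtain ⟨s, hs⟩ : ∃ s : A⟦(1 : ℤ)⟧ ⟶ B, δ ≫ s ≫ δ = δ := by
    by_cases h0 : δ = 0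
    · exact ⟨0, by rw [h0, zero_comp]⟩
    obtain ⟨hA1, hA2⟩ := Dg_degree hnd ht hrig hcons hGd hA
    obtain ⟨hB1, hB2⟩ := Dg_degree hnd ht hrig hcons hGd hB
    have hA3 := t.isGE_shift A a 1 (a - 1) (by lia)
    obtain rfl : b = a - 1 := by
      by_contra hne
      exact h0 (t.zero_of_isLE_of_isGE δ b (a - 1) (by lia) hB1 hA3)
    obtain ⟨A₀, j, k, hA₀, hj, h3, ⟨eA⟩⟩ := hA
    obtain ⟨B₀, j', l, hB₀, hj', h3', ⟨eB⟩⟩ := hB
    have hA4 : R.ConcentratedIn (j - k - 1) (A⟦(1 : ℤ)⟧) :=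
      ((hj.shift k).of_iso eA.symm).shift 1
    have hB4 : R.ConcentratedIn (j' - l) B := (hj'.shift l).of_iso eB.symm
    have hdeg : j' - l = j - k - 1 := by
      by_contra hne
      apply h0
      refine Realization.eq_zero_of_level hnd ht hrig hcons hB1 hA3 δ fun i => ?_
      by_cases hi : i = j' - l
      · ext x
        exact (hA4 i (by lia)).elim _ _
      · ext x
        rw [show x = 0 from (hB4 i hi).elim _ _, map_zero, map_zero]
    obtain rfl : j' = j := by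
      have h5 : (j' - j) * (m - 2) = 0 := by linear_combination h3 - h3' - 2 * hdeg
      rcases mul_eq_zero.1 h5 with h6 | h6 <;> lia
    obtain rfl : l = k + 1 := by lia
    let ε : A⟦(1 : ℤ)⟧ ≅ A₀⟦k + 1⟧ := (shiftFunctor T (1 : ℤ)).mapIso eA ≪≫
      ((shiftFunctorAdd' T k 1 (k + 1) rfl).app A₀).symm
    obtain ⟨f₀, hf₀⟩ := (shiftFunctor T (k + 1)).map_surjective (eB.inv ≫ δ ≫ ε.hom)
    obtain ⟨g₀, hg₀⟩ := quasi_inverse hnd ht hrig hcons hGd hS hA₀ hB₀ hj hj' f₀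
    refine ⟨ε.hom ≫ g₀⟦k + 1⟧' ≫ eB.inv, ?_⟩
    have h6 : δ = eB.hom ≫ f₀⟦k + 1⟧' ≫ ε.inv := by
      rw [hf₀]
      simp
    have h7 : f₀⟦k + 1⟧' ≫ g₀⟦k + 1⟧' ≫ f₀⟦k + 1⟧' = f₀⟦k + 1⟧' := by
      rw [← Functor.map_comp, ← Functor.map_comp, hg₀]
    calc δ ≫ (ε.hom ≫ g₀⟦k + 1⟧' ≫ eB.inv) ≫ δ
        = eB.hom ≫ (f₀⟦k + 1⟧' ≫ g₀⟦k + 1⟧' ≫ f₀⟦k + 1⟧') ≫ ε.inv := by
          rw [h6]
          simp only [assoc, Iso.inv_hom_id_assoc]
      _ = δ := by rw [h7, ← h6]
  obtain ⟨K, C, ⟨rK⟩, ⟨rC⟩, ⟨e⟩⟩ := swap_of_split hT s hs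
  exact (extensionProduct (Dg R S m b) (Dg R S m a)).prop_of_iso e.symm
    ⟨_, _, _, _, _, binaryBiproductTriangle_distinguished K C, Dg_retract rK hB,
      Dg_retract rC hA⟩

/-- The case `m = 2`. -/
lemma texact_of_two [IsIdempotentComplete T] [S.IsStableUnderRetracts] (hm : m = 2)
    (hS : IsChowClass S) : R.TExact t := by
  subst hm
  have hCK := chowKunneth_of_gd hnd ht hrig hcons hGd
  apply R.texact_of_gen ht
  obtain ⟨Q, hQ⟩ : ∃ Q : ObjectProperty T, Q = Sorting.anyOf (R.DD t) := ⟨_, rfl⟩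
  rw [← hQ]
  have hu : ∀ G, S G → ∀ d, R.ConcentratedIn d G → Q G := by
    intro G hG d hd
    obtain ⟨h1, h2⟩ := (hGd G hG).1.pure hnd ht hrig hcons hd (c := d) (by lia) (by lia)
    rw [hQ]
    exact ⟨d, h1, h2, hd, Realization.extPower_of_conc hcons (by simpa using hd.shift d)⟩
  have hne : Q.Nonempty := ⟨𝟙_ T, hu _ hS.unit 0 R.unit_conc⟩
  have h := hS.generates
  rw [isClassicalTriangulatedGenerator_iff, eq_top_iff] at h ⊢
  refine h.trans ((triangEnvelope_le_iff _).2 ?_)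
  intro G hG
  obtain ⟨n, B, hB, ⟨e⟩⟩ := hCK G hG
  refine Q.triangEnvelope.prop_of_iso ((biproduct.isoProduct B).symm ≪≫ e.symm : ∏ᶜ B ≅ G)
    (prop_product _ fun j => ?_)
  obtain ⟨h1, d, h2⟩ := hB j
  exact Q.le_triangEnvelope _ (hu _ h1 d h2)

end

section Two

variable (t t') in
/-- degree `≤ n` for both t-structures -/
def LT (n : ℤ) : ObjectProperty T := fun X => t.IsLE X n ∧ t'.IsLE X n

variable (t t') in
/-- degree `> n` for both t-structures -/
def GT (n : ℤ) : ObjectProperty T := fun X => t.IsGE X (n + 1) ∧ t'.IsGE X (n + 1)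

instance (n : ℤ) : (LT t t' n).IsClosedUnderIsomorphisms where
  of_iso e h := by
    obtain ⟨h1, h2⟩ := h
    exact ⟨t.isLE_of_iso e n, t'.isLE_of_iso e n⟩

instance (n : ℤ) : (GT t t' n).IsClosedUnderIsomorphisms where
  of_iso e h := by
    obtain ⟨h1, h2⟩ := h
    exact ⟨t.isGE_of_iso e _, t'.isGE_of_iso e _⟩

instance (n : ℤ) : (LT t t' n).ContainsZero where
  exists_zero := ⟨_, isZero_zero T, t.isLE_of_isZero (isZero_zero T) n,
    t'.isLE_of_isZero (isZero_zero T) n⟩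

instance (n : ℤ) : (GT t t' n).ContainsZero where
  exists_zero := ⟨_, isZero_zero T, t.isGE_of_isZero (isZero_zero T) _,
    t'.isGE_of_isZero (isZero_zero T) _⟩

lemma LT_ext (n : ℤ) : Sorting.ExtClosed (LT t t' n) := by
  rintro X ⟨A, B, f, g, δ, hT, hA, hB⟩
  exact ⟨isLE_ext t hT n hA.1 hB.1, isLE_ext t' hT n hA.2 hB.2⟩

lemma GT_ext (n : ℤ) : Sorting.ExtClosed (GT t t' n) := by
  rintro X ⟨A, B, f, g, δ, hT, hA, hB⟩
  exact ⟨isGE_ext t hT _ hA.1 hB.1, isGE_ext t' hT _ hA.2 hB.2⟩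

end Two

/-- Two t-structures agree if every object is a retract of one which is decomposed by both. -/
lemma eq_of_common (h : ∀ X : T, ∃ (Y : T) (_ : Retract X Y), ∀ n : ℤ,
    extensionProduct (LT t t' n) (GT t t' n) Y) : t = t' := by
  have key : ∀ (s s' : TStructure T), (∀ X : T, ∃ (Y : T) (_ : Retract X Y), ∀ n : ℤ,
      extensionProduct (LT s s' n) (GT s s' n) Y) →
      (∀ n X, s.le n X → s'.le n X) ∧ ∀ n X, s.ge n X → s'.ge n X := by
    intro s s' h
    constructor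
    · intro n X hX
      have hX' : s.IsLE X n := ⟨hX⟩
      obtain ⟨Y, r, hY⟩ := h X
      obtain ⟨P, Q, f, g, δ, hT, hP, hQ⟩ := hY n
      have h1 : r.i ≫ g = 0 := s.zero_of_isLE_of_isGE _ n (n + 1) (by lia) hX' hQ.1
      obtain ⟨σ, hσ⟩ : ∃ σ : X ⟶ P, r.i = σ ≫ f := Triangle.coyoneda_exact₂ _ hT r.i h1
      exact (isLE_of_retract s' (Y := P) ⟨σ, f ≫ r.r, by rw [← assoc, ← hσ, r.retract]⟩ n
        hP.2).le
    · intro n X hX
      have hX' : s.IsGE X n := ⟨hX⟩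
      obtain ⟨Y, r, hY⟩ := h X
      obtain ⟨P, Q, f, g, δ, hT, hP, hQ⟩ := hY (n - 1)
      have h1 : f ≫ r.r = 0 := s.zero_of_isLE_of_isGE _ (n - 1) n (by lia) hP.1 hX'
      obtain ⟨σ, hσ⟩ : ∃ σ : Q ⟶ X, r.r = g ≫ σ := Triangle.yoneda_exact₂ _ hT r.r h1
      have h2 : s'.IsGE Q n := by
        have := hQ.2
        rwa [sub_add_cancel] at this
      exact (isGE_of_retract s' (Y := Q) ⟨r.i ≫ g, σ, by rw [assoc, ← hσ, r.retract]⟩ n h2).ge
  have h1 := key t t' h
  have h2 := key t' t (fun X => by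
    obtain ⟨Y, r, hY⟩ := h X
    refine ⟨Y, r, fun n => ?_⟩
    obtain ⟨P, Q, f, g, δ, hT, hP, hQ⟩ := hY n
    exact ⟨P, Q, f, g, δ, hT, ⟨hP.2, hP.1⟩, ⟨hQ.2, hQ.1⟩⟩)
  have hle : t.le = t'.le := by
    funext n
    ext X
    exact ⟨h1.1 n X, h2.1 n X⟩
  have hge : t.ge = t'.ge := by
    funext n
    ext X
    exact ⟨h1.2 n X, h2.2 n X⟩
  cases t
  cases t'
  cases hle
  cases hge
  rfl

/-- A nondegenerate tensor compatible t-structure is determined by the degree of `W`. -/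
theorem tstructure_unique [IsIdempotentComplete T] [CharZero F] (hrig : IsRigid T)
    (hcons : R.Conservative) {W W' : T} (e : W ⊗ W' ≅ 𝟙_ T) (hW : R.ConcentratedIn (-2) W)
    (hS : IsChowClass S) [S.IsStableUnderRetracts] (hpol : PolarisedGenerated R W S) {m : ℤ}
    (hm : 2 ≤ m) (hnd : Nondegenerate t) (ht : TensorCompatible t) (h1 : t.IsLE W (-m))
    (h2 : t.IsGE W (-m)) (hnd' : Nondegenerate t') (ht' : TensorCompatible t')
    (h1' : t'.IsLE W (-m)) (h2' : t'.IsGE W (-m)) : t = t' := by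
  have hGd := gd_of_mem hnd ht hrig hcons e hW hm h1 h2 hpol
  have hGd' := gd_of_mem hnd' ht' hrig hcons e hW hm h1' h2' hpol
  rcases eq_or_ne m 2 with hm2 | hm2
  · exact Realization.tstructure_ext (texact_of_two hnd ht hrig hcons hGd hm2 hS)
      (texact_of_two hnd' ht' hrig hcons hGd' hm2 hS) hcons
  · apply eq_of_common
    intro X
    have hgen := Dg_generates hnd ht hrig hcons hGd hS (chowKunneth_of_gd hnd ht hrig hcons hGd)
    have hX : (Sorting.anyOf (Dg R S m)).triangEnvelope X := by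
      rw [isClassicalTriangulatedGenerator_iff] at hgen
      rw [hgen]
      trivial
    obtain ⟨Y, r, hY⟩ := Sorting.exists_retract (Dg_shift m)
      (Dg_swap hnd ht hrig hcons hGd (by lia) hS) hX
    refine ⟨Y, r, fun n => hY _ _ (LT_ext n) (GT_ext n) n ?_ ?_⟩
    · intro a ha Z hZ
      have h3 := (Dg_degree hnd ht hrig hcons hGd hZ).1
      have h4 := (Dg_degree hnd' ht' hrig hcons hGd' hZ).1
      exact ⟨t.isLE_of_le Z a n ha, t'.isLE_of_le Z a n ha⟩
    · intro a ha Z hZ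
      have h3 := (Dg_degree hnd ht hrig hcons hGd hZ).2
      have h4 := (Dg_degree hnd' ht' hrig hcons hGd' hZ).2
      exact ⟨t.isGE_of_ge Z (n + 1) a (by lia), t'.isGE_of_ge Z (n + 1) a (by lia)⟩

/-- The realisation is exact if and only if `W` is in degree `-2`. -/
theorem exact_iff [IsIdempotentComplete T] [CharZero F] (hrig : IsRigid T)
    (hcons : R.Conservative) {W W' : T} (e : W ⊗ W' ≅ 𝟙_ T) (hW : R.ConcentratedIn (-2) W)
    (hS : IsChowClass S) [S.IsStableUnderRetracts] (hpol : PolarisedGenerated R W S)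
    (hnd : Nondegenerate t) (ht : TensorCompatible t) :
    R.TExact t ↔ t.IsLE W (-2) ∧ t.IsGE W (-2) := by
  constructor
  · intro hR
    exact ⟨Realization.isLE_of_van hR hcons fun i hi => hW i (by lia),
      Realization.isGE_of_van hR hcons fun i hi => hW i (by lia)⟩
  · rintro ⟨h1, h2⟩
    exact texact_of_two hnd ht hrig hcons
      (gd_of_mem hnd ht hrig hcons e hW (m := 2) le_rfl h1 h2 hpol) rfl hS

end Pool.Agent.Lib.MotT
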