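import Pool.Agent.Lib.MP_6d0ce9_ag.An.Rig
import Pool.Agent.Lib.MP_6d0ce9_ag.An.Uniq

/-!
# A t-structure is determined by the degrees of the invertible objects
-/

set_option linter.unusedSectionVars false

universe w v u

open CategoryTheory Category Limits MonoidalCategory Pretriangulated Triangulated
  ObjectProperty
open scoped ZeroObject

namespace Pool.Agent.Lib.MotT

variable {T : Type u} [Category.{v} T] [Preadditive T] [HasZeroObject T] [HasShift T ℤ]
  [∀ n : ℤ, (shiftFunctor T n).Additive] [Pretriangulated T] [IsTriangulated T]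
  [MonoidalCategory T] [SymmetricCategory T] [∀ X : T, (tensorLeft X).CommShift ℤ]
  [∀ X : T, (tensorLeft X).IsTriangulated] {F : Type w} [Field F] {R : Realization T F}
  {t t' : TStructure T}

namespace Realization

/-- A nonzero object concentrated in degree `d` and at level `a` has `d = a`, if the invertible
objects in the heart are concentrated in degree `0`. -/
lemma conc_eq_level [IsIdempotentComplete T] [CharZero F] (ht : TensorCompatible t)
    (hrig : IsRigid T) (hcons : R.Conservative)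
    (hinv : ∀ L L' : T, Nonempty (L ⊗ L' ≅ 𝟙_ T) → t.heart L → R.ConcentratedIn 0 L)
    {X : T} {a d : ℤ} (h1 : t.IsLE X a) (h2 : t.IsGE X a) (hd : R.ConcentratedIn d X)
    (hX : ¬ IsZero X) : a = d := by
  obtain ⟨n, L, L', ⟨r⟩, ⟨e⟩, hL, hL0⟩ := exists_invertible hrig hcons hd hX
  have h3 : t.IsLE L (((n : ℤ) + 1) * a) := isLE_of_retract t r _ (le_tpow ht h1 n)
  have h4 : t.IsGE L (((n : ℤ) + 1) * a) := isGE_of_retract t r _ (ge_tpow ht h2 n)
  have h5 : t.heart (L⟦((n : ℤ) + 1) * a⟧) := (heart_iff t _).2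
    ⟨t.isLE_shift L (((n : ℤ) + 1) * a) (((n : ℤ) + 1) * a) 0 (by ring),
      t.isGE_shift L (((n : ℤ) + 1) * a) (((n : ℤ) + 1) * a) 0 (by ring)⟩
  have h6 := hinv _ _ (invertible_shift e (((n : ℤ) + 1) * a)) h5
  have h7 := conc_unique hcons (fun h => hL0 (isZero_of_isZero_shift _ h)) h6
    (hL.shift (((n : ℤ) + 1) * a))
  have h8 : ((n : ℤ) + 1) * (a - d) = 0 := by linarith
  rcases mul_eq_zero.1 h8 with h | h <;> lia

/-- If the realisation is conservative and the invertible objects in the heart are concentrated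
in degree `0` then the realisation is exact, provided that the objects concentrated in one degree
generate. -/
theorem texact_of_invertible [IsIdempotentComplete T] [CharZero F] (hnd : Nondegenerate t)
    (ht : TensorCompatible t) (hrig : IsRigid T) (hcons : R.Conservative)
    (hinv : ∀ L L' : T, Nonempty (L ⊗ L' ≅ 𝟙_ T) → t.heart L → R.ConcentratedIn 0 L)
    (hcom : R.CommonGen R) : R.TExact t := by
  apply R.texact_of_gen ht
  obtain ⟨P, hP⟩ : ∃ P : ObjectProperty T, P = Sorting.anyOf (R.DD t) := ⟨_, rfl⟩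
  rw [← hP]
  have hP' : ∀ (n : ℤ) (X : T), t.IsLE X n → t.IsGE X n → R.ConcentratedIn n X → P X := by
    intro n X h1 h2 h3
    rw [hP]
    exact ⟨n, h1, h2, h3, extPower_of_conc hcons (by simpa using h3.shift n)⟩
  have hu := unit_mem hnd ht
  have hne : P.Nonempty := ⟨𝟙_ T, hP' 0 _ hu.1 hu.2 R.unit_conc⟩
  rw [CommonGen, isClassicalTriangulatedGenerator_iff, eq_top_iff] at hcom
  rw [isClassicalTriangulatedGenerator_iff, eq_top_iff]
  refine hcom.trans ((triangEnvelope_le_iff _).2 ?_)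
  rintro G ⟨d, hG, -⟩
  refine mem_envelope_of_levels hnd ht hrig hcons P (fun X => R.ConcentratedIn d X)
    (fun hT hf hX => conc_sub_quot hT hf hX) (fun X a h1 h2 hX => ?_) hG
  by_cases h0 : IsZero X
  · exact P.triangEnvelope.prop_of_isZero h0
  · obtain rfl := conc_eq_level ht hrig hcons hinv h1 h2 hX h0
    exact P.le_triangEnvelope _ (hP' _ X h1 h2 hX)

end Realization

variable (t t') in
/-- level `n` for both t-structures -/
def Bo (n : ℤ) : ObjectProperty T := fun X =>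
  (t.IsLE X n ∧ t.IsGE X n) ∧ t'.IsLE X n ∧ t'.IsGE X n

instance (n : ℤ) : (Bo t t' n).IsClosedUnderIsomorphisms where
  of_iso e h := by
    obtain ⟨⟨h1, h2⟩, h3, h4⟩ := h
    exact ⟨⟨t.isLE_of_iso e n, t.isGE_of_iso e n⟩, t'.isLE_of_iso e n, t'.isGE_of_iso e n⟩

lemma Bo_shift (n a : ℤ) (X : T) (h : Bo t t' n X) : Bo t t' (n - a) (X⟦a⟧) := by
  obtain ⟨⟨h1, h2⟩, h3, h4⟩ := h
  exact ⟨⟨t.isLE_shift X n a (n - a) (by lia), t.isGE_shift X n a (n - a) (by lia)⟩,
    t'.isLE_shift X n a (n - a) (by lia), t'.isGE_shift X n a (n - a) (by lia)⟩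

namespace Realization

/-- A morphism from `D^{≤ b}` whose cone is in `D^{≥ b}` is injective on cohomology. -/
lemma inj_of_levels [CharZero F] (hnd : Nondegenerate t) (ht : TensorCompatible t)
    (hrig : IsRigid T) (hcons : R.Conservative) {A X C : T} {f : A ⟶ X} {g : X ⟶ C}
    {δ : C ⟶ A⟦(1 : ℤ)⟧} (hT : Triangle.mk f g δ ∈ distTriang T) {b : ℤ} (hA : t.IsLE A b)
    (hC : t.IsGE C b) (m : ℤ) (x : R.Hm m A) (hx : R.mp m f x = 0) : x = 0 := by
  obtain ⟨y, hy⟩ := R.exact₂ (inv_rot_of_distTriang _ hT) m x hx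
  have hB' : t.IsGE (C⟦(-1 : ℤ)⟧) (b + 1) := t.isGE_shift C b (-1) (b + 1) (by lia)
  have h1 := (R.tmap_eq_zero_iff _).1 (tmap_eq_zero_of_levels hnd ht hrig hcons hB' hA
    (Triangle.mk f g δ).invRotate.mor₁) m
  have h2 : R.mp m (Triangle.mk f g δ).invRotate.mor₁ y = 0 := by
    have := LinearMap.congr_fun h1 y
    rwa [LinearMap.zero_apply] at this
  exact hy.symm.trans h2

/-- A morphism to `D^{≥ b + 1}` whose cone is in `D^{≤ b}` is surjective on cohomology. -/
lemma surj_of_levels [CharZero F] (hnd : Nondegenerate t) (ht : TensorCompatible t)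
    (hrig : IsRigid T) (hcons : R.Conservative) {A X C : T} {f : A ⟶ X} {g : X ⟶ C}
    {δ : C ⟶ A⟦(1 : ℤ)⟧} (hT : Triangle.mk f g δ ∈ distTriang T) {b : ℤ}
    (hX : t.IsGE X (b + 1)) (hC : t.IsLE C b) (m : ℤ) (x : R.Hm m X) :
    ∃ y : R.Hm m A, R.mp m f y = x := by
  refine R.exact₂' hT m x ?_
  rw [(R.tmap_eq_zero_iff _).1 (tmap_eq_zero_of_levels hnd ht hrig hcons hX hC g) m,
    LinearMap.zero_apply]

end Realization

open Realization in
/-- Extensions can be swapped. -/
lemma Bo_swap [CharZero F] (hrig : IsRigid T) (hcons : R.Conservative) (hnd : Nondegenerate t)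
    (ht : TensorCompatible t) (hnd' : Nondegenerate t') (ht' : TensorCompatible t')
    (a b : ℤ) (h : b < a) :
    extensionProduct (Bo t t' a) (Bo t t' b) ≤
      extensionProduct (Bo t t' b) (Bo t t' a) := by
  rintro X ⟨A, B, f, g, δ, hT, ⟨⟨hA1, hA2⟩, hA3, hA4⟩, ⟨⟨hB1, hB2⟩, hB3, hB4⟩⟩
  obtain ⟨A₁, B₁, i, p, κ, hT₁, hA₁, hB₁⟩ := exists_trunc t X b (b + 1) rfl
  -- `A₁ ⟶ B` is injective on cohomology
  obtain ⟨C, c, c', hC⟩ := distinguished_cocone_triangle (i ≫ g)
  have o := someOctahedron rfl hT₁ (rot_of_distTriang _ hT) hC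
  have hA5 := t.isGE_shift A a 1 (a - 1) (by lia)
  have hC1 : t.IsGE C b := isGE_ext t o.mem b (t.isGE_of_ge B₁ b (b + 1) (by lia))
    (t.isGE_of_ge (A⟦(1 : ℤ)⟧) b (a - 1) (by lia))
  have hi := fun (m : ℤ) (x : R.Hm m A₁) => inj_of_levels hnd ht hrig hcons hC hA₁ hC1 m x
  -- `A ⟶ B₁` is surjective on cohomology
  obtain ⟨C', d, d', hC'⟩ := distinguished_cocone_triangle (f ≫ p)
  have o' := someOctahedron rfl hT (rot_of_distTriang _ hT₁) hC'
  have hA6 := t.isLE_shift A₁ b 1 (b - 1) (by lia)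
  have hC1' : t.IsLE C' b := isLE_ext t o'.mem b hB1
    (t.isLE_of_le (A₁⟦(1 : ℤ)⟧) (b - 1) b (by lia))
  have hs := fun (m : ℤ) (x : R.Hm m B₁) => surj_of_levels hnd ht hrig hcons hC' hB₁ hC1' m x
  exact ⟨A₁, B₁, i, p, κ, hT₁,
    ⟨⟨isLE_of_inj hnd ht hrig hcons _ hi hB1, isGE_of_inj hnd ht hrig hcons _ hi hB2⟩,
      isLE_of_inj hnd' ht' hrig hcons _ hi hB3, isGE_of_inj hnd' ht' hrig hcons _ hi hB4⟩,
    ⟨⟨isLE_of_surj hnd ht hrig hcons _ hs hA1, isGE_of_surj hnd ht hrig hcons _ hs hA2⟩,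
      isLE_of_surj hnd' ht' hrig hcons _ hs hA3, isGE_of_surj hnd' ht' hrig hcons _ hs hA4⟩⟩

/-- Two t-structures agree if the objects which have the same level for both generate. -/
theorem tstructure_eq_of_generates [CharZero F] (hrig : IsRigid T) (hcons : R.Conservative)
    (hnd : Nondegenerate t) (ht : TensorCompatible t) (hnd' : Nondegenerate t')
    (ht' : TensorCompatible t')
    (hgen : (Sorting.anyOf (Bo t t')).IsClassicalTriangulatedGenerator) : t = t' := by
  apply eq_of_common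
  intro X
  have hX : (Sorting.anyOf (Bo t t')).triangEnvelope X := by
    rw [isClassicalTriangulatedGenerator_iff] at hgen
    rw [hgen]
    trivial
  obtain ⟨Y, r, hY⟩ := Sorting.exists_retract Bo_shift
    (Bo_swap hrig hcons hnd ht hnd' ht') hX
  refine ⟨Y, r, fun n => hY _ _ (LT_ext n) (GT_ext n) n ?_ ?_⟩
  · rintro a ha Z ⟨⟨h1, h2⟩, h3, h4⟩
    exact ⟨t.isLE_of_le Z a n ha, t'.isLE_of_le Z a n ha⟩
  · rintro a ha Z ⟨⟨h1, h2⟩, h3, h4⟩
    exact ⟨t.isGE_of_ge Z (n + 1) a (by lia), t'.isGE_of_ge Z (n + 1) a (by lia)⟩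

open Realization in
/-- A t-structure is determined by the invertible objects in its heart, if the objects
concentrated in one degree for a conservative realisation generate. -/
theorem tstructure_eq_of_invertible [IsIdempotentComplete T] [CharZero F] (hrig : IsRigid T)
    (hcons : R.Conservative) (hcom : R.CommonGen R) (hnd : Nondegenerate t)
    (ht : TensorCompatible t) (hnd' : Nondegenerate t') (ht' : TensorCompatible t')
    (hinv : ∀ L L' : T, Nonempty (L ⊗ L' ≅ 𝟙_ T) → t.heart L → t'.heart L) : t = t' := by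
  apply tstructure_eq_of_generates (R := R) hrig hcons hnd ht hnd' ht'
  obtain ⟨P, hP⟩ : ∃ P : ObjectProperty T, P = Sorting.anyOf (Bo t t') := ⟨_, rfl⟩
  rw [← hP]
  have hP' : ∀ (n : ℤ) (X : T), t.IsLE X n → t.IsGE X n → t'.IsLE X n → t'.IsGE X n → P X := by
    intro n X h1 h2 h3 h4
    rw [hP]
    exact ⟨n, ⟨h1, h2⟩, h3, h4⟩
  have hu := unit_mem hnd ht
  have hu' := unit_mem hnd' ht'
  have hne : P.Nonempty := ⟨𝟙_ T, hP' 0 _ hu.1 hu.2 hu'.1 hu'.2⟩
  rw [CommonGen, isClassicalTriangulatedGenerator_iff, eq_top_iff] at hcom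
  rw [isClassicalTriangulatedGenerator_iff, eq_top_iff]
  refine hcom.trans ((triangEnvelope_le_iff _).2 ?_)
  rintro G ⟨d, hG, -⟩
  refine mem_envelope_of_levels hnd ht hrig hcons P (fun X => R.ConcentratedIn d X)
    (fun hT hf hX => conc_sub_quot hT hf hX) (fun X a h1 h2 hX => ?_) hG
  refine mem_envelope_of_levels hnd' ht' hrig hcons P
    (fun X => R.ConcentratedIn d X ∧ t.IsLE X a ∧ t.IsGE X a)
    (fun {A X B f g δ} hT hf ⟨hX, h3, h4⟩ => ?_) (fun X b h3 h4 ⟨hX, h5, h6⟩ => ?_) ⟨hX, h1, h2⟩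
  · obtain ⟨h5, h6⟩ := conc_sub_quot hT hf hX
    have hs := surj_of_inj hT hf
    exact ⟨⟨h5, isLE_of_inj hnd ht hrig hcons f hf h3, isGE_of_inj hnd ht hrig hcons f hf h4⟩,
      h6, isLE_of_surj hnd ht hrig hcons g hs h3, isGE_of_surj hnd ht hrig hcons g hs h4⟩
  · by_cases h0 : IsZero X
    · exact P.triangEnvelope.prop_of_isZero h0
    obtain ⟨n, L, L', ⟨r⟩, ⟨e⟩, -, hL0⟩ := exists_invertible hrig hcons hX h0
    have h7 : t.IsLE L (((n : ℤ) + 1) * a) := isLE_of_retract t r _ (le_tpow ht h5 n)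
    have h8 : t.IsGE L (((n : ℤ) + 1) * a) := isGE_of_retract t r _ (ge_tpow ht h6 n)
    have h9 : t'.IsLE L (((n : ℤ) + 1) * b) := isLE_of_retract t' r _ (le_tpow ht' h3 n)
    have h10 : t'.IsGE L (((n : ℤ) + 1) * b) := isGE_of_retract t' r _ (ge_tpow ht' h4 n)
    have h11 : t.heart (L⟦((n : ℤ) + 1) * a⟧) := (heart_iff t _).2
      ⟨t.isLE_shift L (((n : ℤ) + 1) * a) (((n : ℤ) + 1) * a) 0 (by ring),
        t.isGE_shift L (((n : ℤ) + 1) * a) (((n : ℤ) + 1) * a) 0 (by ring)⟩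
    obtain ⟨h12, h13⟩ := (heart_iff t' _).1
      (hinv _ _ (invertible_shift e (((n : ℤ) + 1) * a)) h11)
    have h14 := level_unique (fun h => hL0 (isZero_of_isZero_shift _ h)) h12 h13
      (t'.isLE_shift L (((n : ℤ) + 1) * b) (((n : ℤ) + 1) * a)
        (((n : ℤ) + 1) * b - ((n : ℤ) + 1) * a) (by ring))
      (t'.isGE_shift L (((n : ℤ) + 1) * b) (((n : ℤ) + 1) * a)
        (((n : ℤ) + 1) * b - ((n : ℤ) + 1) * a) (by ring))
    have h15 : ((n : ℤ) + 1) * (b - a) = 0 := by linarith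
    have h16 : b = a := by
      rcases mul_eq_zero.1 h15 with h | h <;> lia
    subst h16
    exact P.le_triangEnvelope _ (hP' _ X h5 h6 h3 h4)

open Realization in
/-- If there are no nonzero morphisms from the unit object to the objects of `D^{≤ -1}` whose
cohomology vanishes in negative degrees, then a morphism from the unit object to an object whose
cohomology vanishes in negative degrees is zero as soon as it is zero on `H^0`. -/
theorem injectiveOnCoconnective_of_orth [CharZero F] (hnd : Nondegenerate t)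
    (ht : TensorCompatible t) (hrig : IsRigid T) (hcons : R.Conservative)
    (h : ∀ M : T, t.IsLE M (-1) → (∀ i : ℤ, i < 0 → R.Van i M) → ∀ f : 𝟙_ T ⟶ M, f = 0) :
    R.InjectiveOnCoconnective := by
  intro M hM f hf
  obtain ⟨A, B, i, g, δ, hT, hA, hB⟩ := exists_trunc t M (-1) 0 (by lia)
  have h1 : f ≫ g = 0 := by
    refine eq_zero_of_level hnd ht hrig hcons (unit_mem hnd ht).1 hB _ fun j => ?_
    by_cases hj : j = 0
    · subst hj
      rw [mp_comp, mp_eq_zero_of_map f hf, LinearMap.comp_zero]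
    · ext x
      rw [show x = 0 from (R.unit_conc j hj).elim _ _, map_zero, map_zero]
  obtain ⟨f', rfl⟩ : ∃ f' : 𝟙_ T ⟶ A, f = f' ≫ i := Triangle.coyoneda_exact₂ _ hT f h1
  rw [h A hA (fun j hj => ?_) f', zero_comp]
  have h2 : ∀ x : R.Hm j A, x = 0 := fun x =>
    trunc_injective hnd ht hrig hcons j hT hA (by simpa using hB) x ((hM j hj).elim _ _)
  exact ⟨fun x y => (h2 x).trans (h2 y).symm⟩

end Pool.Agent.Lib.MotT
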