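import Pool.Agent.Lib.MP_6d0ce9_ag.An.Lvl

/-!
# The levels of the classes of polarised objects
-/

set_option linter.unusedSectionVars false

universe w v u

open CategoryTheory Category Limits MonoidalCategory Pretriangulated Triangulated
  ObjectProperty

namespace Pool.Agent.Lib.MotT

namespace Realization

variable {T : Type u} [Category.{v} T] [Preadditive T] [HasZeroObject T] [HasShift T ℤ]
  [∀ n : ℤ, (shiftFunctor T n).Additive] [Pretriangulated T] [IsTriangulated T]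
  [MonoidalCategory T] [SymmetricCategory T] [∀ X : T, (tensorLeft X).CommShift ℤ]
  [∀ X : T, (tensorLeft X).IsTriangulated] {F : Type w} [Field F] {R : Realization T F}
  {t : TStructure T}

/-- a nonzero class of level `≤ a` gives a nonzero class of level `≤ a - m k` of the twist -/
lemma exists_lev_twist' (ht : TensorCompatible t) {W M : T} {m : ℤ} (hW1 : t.IsLE W (-m))
    (hW : ¬ R.Van (-2) W) {a i : ℤ} {x : R.Hm i M} (hx : R.Lev t a i M x) (hx0 : x ≠ 0)
    (k : ℕ) : ∀ n : ℤ, n = i - 2 * k → ∃ z : R.Hm n (twist W M k), z ≠ 0 ∧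
      R.Lev t (a - m * k) n (twist W M k) z := by
  induction k with
  | zero =>
    rintro n hn
    obtain rfl : n = i := by simpa using hn
    refine ⟨x, hx0, ?_⟩
    change R.Lev t (a - m * ((0 : ℕ) : ℤ)) n M x
    simpa using hx
  | succ k ih =>
    rintro n hn
    obtain ⟨w, hw⟩ : ∃ w : R.Hm (-2) W, w ≠ 0 := by
      by_contra h
      push Not at h
      exact hW ⟨fun x y => (h x).trans (h y).symm⟩
    obtain ⟨z, hz, hz'⟩ := ih (i - 2 * k) rfl
    have h1 : i - 2 * k + -2 = n := by rw [hn]; push_cast; ring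
    refine ⟨R.cup h1 _ W z w, R.cup_ne_zero h1 hz hw, ?_⟩
    have h2 := hz'.cup ht h1 hW1 w
    rwa [show a - m * (k : ℤ) + -m = a - m * ((k + 1 : ℕ) : ℤ) by push_cast; ring] at h2

lemma twist_ge' (hnd : Nondegenerate t) (ht : TensorCompatible t) {W : T} {m : ℤ}
    (hW2 : t.IsGE W (-m)) (k : ℕ) : t.IsGE (twist W (𝟙_ T) k) (-m * (k : ℤ)) := by
  induction k with
  | zero =>
    change t.IsGE (𝟙_ T) (-m * ((0 : ℕ) : ℤ))
    simpa using (unit_mem hnd ht).2
  | succ k ih =>
    have h := ge_tensor ht ih hW2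
    rwa [show -m * (k : ℤ) + -m = -m * ((k + 1 : ℕ) : ℤ) by push_cast; ring] at h

/-- The classes of `H^i(M)` have level at least `i m / 2`, if `M` is polarised: the case
`i ≤ 0`. -/
lemma pol_neg [CharZero F] (hnd : Nondegenerate t) (ht : TensorCompatible t)
    (hrig : IsRigid T) (hcons : R.Conservative) {W M : T} {m : ℤ} (hW1 : t.IsLE W (-m))
    (hW2 : t.IsGE W (-m)) (hW : ¬ R.Van (-2) W) (hM : R.IsPolarised W M) (k : ℕ) {a : ℤ}
    (hak : 2 * a < -(k : ℤ) * m) (x : R.Hm (-(k : ℤ)) M) (hx : R.Lev t a (-(k : ℤ)) M x) :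
    x = 0 := by
  obtain ⟨D, e, he⟩ := hM
  obtain ⟨b, hb⟩ := R.bounded M
  have key : ∀ N k : ℕ, b < k + 2 * N → ∀ a : ℤ, 2 * a < -(k : ℤ) * m →
      ∀ x : R.Hm (-(k : ℤ)) M, R.Lev t a (-(k : ℤ)) M x → x = 0 := by
    intro N
    induction N with
    | zero =>
      intro k hk a _ x _
      exact (hb (-(k : ℤ)) (by rw [abs_neg, Nat.abs_cast]; simpa using hk)).elim _ _
    | succ N ih =>
      intro k hk a hak x hx
      -- step A
      have hA : ∀ x : R.Hm (-(k : ℤ)) M, R.Lev t a (-(k : ℤ)) M x →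
          R.mp (-(k : ℤ)) (lefPow e (k + 1)) x = 0 := by
        intro x hx
        by_contra h0
        obtain ⟨z, hz, hz'⟩ := exists_lev_twist' ht hW1 hW (hx.map (lefPow e (k + 1))) h0 1
          (-((k + 2 : ℕ) : ℤ)) (by push_cast; ring)
        obtain ⟨x₁, hx₁⟩ := (he (k + 2)).1.2 z
        have h1 : R.Lev t (a - m * (1 : ℕ)) _ M x₁ := by
          refine strict hnd ht hrig hcons (lefPow e (k + 2)) (fun y hy => ?_) x₁ ?_
          · exact (he (k + 2)).1.1 (hy.trans (map_zero _).symm)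
          · change R.Lev t (a - m * (1 : ℕ)) _ _ (R.mapH _ (lefPow e (k + 2)) x₁)
            rw [hx₁]
            exact hz'
        have h2 := ih (k + 2) (by push_cast at hk ⊢; lia) _ (by push_cast; linarith) x₁ h1
        apply hz
        rw [← hx₁, h2]
        exact map_zero (R.mp (-((k + 2 : ℕ) : ℤ)) (lefPow e (k + 2)))
      obtain ⟨A, B, f, g, δ, hT, hA', hB'⟩ := exists_trunc t M a (a + 1) rfl
      obtain ⟨x', hx'⟩ := R.exact₂' hT _ x ((lev_iff hT hA' hB' x).1 hx)
      have hlev : ∀ y : R.Hm (-(k : ℤ)) A, R.Lev t a (-(k : ℤ)) M (R.mp _ f y) := fun y =>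
        ⟨A, f, y, hA', rfl⟩
      have h0 : (f ⊗ₘ f) ≫ lefForm e D.evaluation' k = 0 := by
        have h1 := le_tensor ht hA' hA'
        have h2 := twist_ge' hnd ht hW2 k
        exact t.zero_of_isLE_of_isGE _ (a + a) (-m * (k : ℤ)) (by linarith) h1 h2
      rw [← hx']
      refine (he k).2 A f (fun y => hA _ (hlev y)) (fun y y' => ?_) x'
      have h1 : R.cup (rfl : -(k : ℤ) + -(k : ℤ) = _) M M (R.mp (-(k : ℤ)) f y)
          (R.mp (-(k : ℤ)) f y') = R.mp _ (f ⊗ₘ f) (R.cup rfl A A y y') :=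
        (R.cup_nat rfl f f y y').symm
      change R.mp _ (lefForm e D.evaluation' k) (R.cup rfl M M (R.mp (-(k : ℤ)) f y)
          (R.mp (-(k : ℤ)) f y')) = 0
      rw [h1, ← mp_comp_apply, h0, mp_zero, LinearMap.zero_apply]
  exact key (b.toNat + 1) k (by
    have := Int.self_le_toNat b
    push_cast
    lia) a hak x hx

/-- The classes of `H^i(M)` have level at least `i m / 2`, if `M` is polarised. -/
theorem pol_low [CharZero F] (hnd : Nondegenerate t) (ht : TensorCompatible t)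
    (hrig : IsRigid T) (hcons : R.Conservative) {W M : T} {m : ℤ} (hW1 : t.IsLE W (-m))
    (hW2 : t.IsGE W (-m)) (hW : ¬ R.Van (-2) W) (hM : R.IsPolarised W M) {a i : ℤ}
    (ham : 2 * a < i * m) (x : R.Hm i M) (hx : R.Lev t a i M x) : x = 0 := by
  rcases le_or_gt i 0 with hm | hm
  · obtain ⟨k, rfl⟩ : ∃ k : ℕ, i = -(k : ℤ) := ⟨i.natAbs, by lia⟩
    exact pol_neg hnd ht hrig hcons hW1 hW2 hW hM k ham x hx
  · obtain ⟨k, rfl⟩ : ∃ k : ℕ, i = (k : ℤ) := ⟨i.natAbs, by lia⟩
    by_contra h0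
    obtain ⟨z, hz, hz'⟩ := exists_lev_twist' ht hW1 hW hx h0 k (-(k : ℤ)) (by ring)
    obtain ⟨D, e, he⟩ := id hM
    obtain ⟨x₁, hx₁⟩ := (he k).1.2 z
    have h1 : R.Lev t (a - m * k) _ M x₁ := by
      refine strict hnd ht hrig hcons (lefPow e k) (fun y hy => ?_) x₁ ?_
      · exact (he k).1.1 (hy.trans (map_zero _).symm)
      · change R.Lev t (a - m * k) _ _ (R.mapH _ (lefPow e k) x₁)
        rw [hx₁]
        exact hz'
    have h2 := pol_neg hnd ht hrig hcons hW1 hW2 hW hM k (by linarith) x₁ h1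
    apply hz
    rw [← hx₁, h2]
    exact map_zero (R.mp (-(k : ℤ)) (lefPow e k))

/-- The classes of a polarised object have the prescribed levels. -/
theorem pl_of_polarised [CharZero F] (hnd : Nondegenerate t) (ht : TensorCompatible t)
    (hrig : IsRigid T) (hcons : R.Conservative) {W M : T} {m : ℤ} (hW1 : t.IsLE W (-m))
    (hW2 : t.IsGE W (-m)) (hW : ¬ R.Van (-2) W) (hM : R.IsPolarised W M) : R.Pl t m M := by
  intro i a x
  refine ⟨fun ha hx => pol_low hnd ht hrig hcons hW1 hW2 hW hM ha x hx, fun ha => ?_⟩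
  obtain ⟨A, B, f, g, δ, hT, hA, hB⟩ := exists_trunc t M a (a + 1) rfl
  refine (lev_iff hT hA hB x).2 ?_
  obtain ⟨B', ⟨hBB⟩⟩ := hrig B
  obtain ⟨D, -⟩ := id hM
  obtain ⟨g', hg'⟩ := exists_transpose (M := M) (M' := M) (B' := B') g
  have h1 : t.IsLE B' (-(a + 1)) := dual_le' hnd ht hB
  rw [mp_eq_zero_of_dual g g' hg' i ?_, LinearMap.zero_apply]
  ext y
  rw [LinearMap.zero_apply]
  exact pol_low hnd ht hrig hcons hW1 hW2 hW hM (a := -(a + 1)) (by linarith) _
    ⟨B', g', y, h1, rfl⟩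

end Realization

end Pool.Agent.Lib.MotT
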