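import Pool.Agent.Lib.MP_6d0ce9_ag.St2.HeartF
import Pool.Agent.Lib.MP_6d0ce9_ag.St2.Det
import Pool.Agent.Lib.MP_6d0ce9_ag.St2.InvObj
import Pool.Agent.Lib.MP_6d0ce9_ag.CritDefs

/-!
# The levels of a t-structure can be read off from a conservative realisation
-/

set_option linter.unusedSectionVars false

universe w v u

open CategoryTheory Category Limits MonoidalCategory Pretriangulated Triangulated
  ObjectProperty
open scoped ZeroObject

namespace Pool.Agent.Lib.MotT

namespace Realization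

variable {T : Type u} [Category.{v} T] [Preadditive T] [HasZeroObject T] [HasShift T ℤ]
  [∀ n : ℤ, (shiftFunctor T n).Additive] [Pretriangulated T] [IsTriangulated T]
  [MonoidalCategory T] [SymmetricCategory T] [∀ X : T, (tensorLeft X).CommShift ℤ]
  [∀ X : T, (tensorLeft X).IsTriangulated] {F : Type w} [Field F] {R : Realization T F}
  {t : TStructure T}

lemma isZero_of_all (hcons : R.Conservative) {X : T} (h : ∀ (m : ℤ) (x : R.Hm m X), x = 0) :
    IsZero X :=
  hcons X fun m => ⟨fun x y => (h m x).trans (h m y).symm⟩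

/-- If the first map of a triangle is injective on cohomology then the second one is
surjective. -/
lemma surj_of_inj {A X B : T} {f : A ⟶ X} {g : X ⟶ B} {δ : B ⟶ A⟦(1 : ℤ)⟧}
    (hT : Triangle.mk f g δ ∈ distTriang T)
    (hf : ∀ (m : ℤ) (x : R.Hm m A), R.mp m f x = 0 → x = 0) (m : ℤ) (z : R.Hm m B) :
    ∃ y : R.Hm m X, R.mp m g y = z := by
  refine R.exact₃ hT m z ?_
  change R.mp m δ z = 0
  refine mp_shift_injective rfl f (hf (1 + m)) _ ?_
  have h3 : δ ≫ f⟦(1 : ℤ)⟧' = 0 := comp_distTriang_mor_zero₃₁ _ hT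
  rw [← mp_comp_apply, h3, mp_zero, LinearMap.zero_apply]

/-- If the second map of a triangle is surjective on cohomology then the third one is zero. -/
lemma zero_of_surj {A X B : T} {f : A ⟶ X} {g : X ⟶ B} {δ : B ⟶ A⟦(1 : ℤ)⟧}
    (hT : Triangle.mk f g δ ∈ distTriang T)
    (hg : ∀ (m : ℤ) (z : R.Hm m B), ∃ y : R.Hm m X, R.mp m g y = z) (m : ℤ) :
    R.mp m δ = 0 := by
  ext z
  obtain ⟨y, rfl⟩ := hg m z
  have h3 : g ≫ δ = 0 := comp_distTriang_mor_zero₂₃ _ hT
  rw [← mp_comp_apply, h3, mp_zero, LinearMap.zero_apply, LinearMap.zero_apply]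

/-- If the second map of a triangle is surjective on cohomology then the first one is
injective. -/
lemma inj_of_surj {A X B : T} {f : A ⟶ X} {g : X ⟶ B} {δ : B ⟶ A⟦(1 : ℤ)⟧}
    (hT : Triangle.mk f g δ ∈ distTriang T)
    (hg : ∀ (m : ℤ) (z : R.Hm m B), ∃ y : R.Hm m X, R.mp m g y = z) (m : ℤ) (x : R.Hm m A)
    (hx : R.mp m f x = 0) : x = 0 := by
  obtain ⟨y, hy⟩ := R.exact₂ (inv_rot_of_distTriang _ hT) m x hx
  have h1 : R.mp m (Triangle.mk f g δ).invRotate.mor₁ = 0 := by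
    change R.mp m (-δ⟦(-1 : ℤ)⟧' ≫ (shiftFunctorCompIsoId T (1 : ℤ) (-1) (by lia)).hom.app A) = 0
    rw [mp_neg, mp_comp]
    have h2 : R.mp m (δ⟦(-1 : ℤ)⟧') = 0 := mp_shift_eq_zero rfl δ (zero_of_surj hT hg _)
    rw [h2, LinearMap.comp_zero, neg_zero]
  have h2 : R.mp m (Triangle.mk f g δ).invRotate.mor₁ y = 0 := by rw [h1, LinearMap.zero_apply]
  exact hy.symm.trans h2

/-- A subobject on cohomology of an object of `D^{≥ n}` is in `D^{≥ n}`. -/
theorem isGE_of_inj [CharZero F] (hnd : Nondegenerate t) (ht : TensorCompatible t)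
    (hrig : IsRigid T) (hcons : R.Conservative) {X Y : T} (f : X ⟶ Y)
    (hf : ∀ (m : ℤ) (x : R.Hm m X), R.mp m f x = 0 → x = 0) {n : ℤ} (hY : t.IsGE Y n) :
    t.IsGE X n := by
  obtain ⟨A, B, i, g, δ, hT, hA, hB⟩ := exists_trunc t X (n - 1) n (by lia)
  have hA0 : IsZero A := by
    refine isZero_of_all hcons fun m y => ?_
    refine trunc_injective hnd ht hrig hcons m hT hA (by rwa [sub_add_cancel]) y ?_
    apply hf
    rw [← mp_comp_apply, t.zero_of_isLE_of_isGE (i ≫ f) (n - 1) n (by lia) hA hY, mp_zero,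
      LinearMap.zero_apply]
  have : IsIso g := (Triangle.isZero₁_iff_isIso₂ _ hT).1 hA0
  exact t.isGE_of_iso (asIso g).symm n

/-- A subobject on cohomology of an object of `D^{≤ n}` is in `D^{≤ n}`. -/
theorem isLE_of_inj [CharZero F] (hnd : Nondegenerate t) (ht : TensorCompatible t)
    (hrig : IsRigid T) (hcons : R.Conservative) {X Y : T} (f : X ⟶ Y)
    (hf : ∀ (m : ℤ) (x : R.Hm m X), R.mp m f x = 0 → x = 0) {n : ℤ} (hY : t.IsLE Y n) :
    t.IsLE X n := by
  obtain ⟨A, B, i, g, δ, hT, hA, hB⟩ := exists_trunc t X n (n + 1) rfl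
  have hB0 : IsZero B := by
    refine isZero_of_all hcons fun m z => ?_
    obtain ⟨x, rfl⟩ := surj_of_inj hT
      (fun m => trunc_injective (R := R) hnd ht hrig hcons m hT hA hB) m z
    exact (lev_iff hT hA hB x).1 (strict hnd ht hrig hcons f (hf m) x
      ⟨Y, 𝟙 Y, R.mp m f x, hY, by rw [mp_id, LinearMap.id_apply]⟩)
  have : IsIso i := (Triangle.isZero₃_iff_isIso₁ _ hT).1 hB0
  exact t.isLE_of_iso (asIso i) n

/-- A quotient on cohomology of an object of `D^{≤ n}` is in `D^{≤ n}`. -/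
theorem isLE_of_surj [CharZero F] (hnd : Nondegenerate t) (ht : TensorCompatible t)
    (hrig : IsRigid T) (hcons : R.Conservative) {X Y : T} (f : X ⟶ Y)
    (hf : ∀ (m : ℤ) (z : R.Hm m Y), ∃ y : R.Hm m X, R.mp m f y = z) {n : ℤ} (hX : t.IsLE X n) :
    t.IsLE Y n := by
  obtain ⟨A, B, i, g, δ, hT, hA, hB⟩ := exists_trunc t Y n (n + 1) rfl
  have hB0 : IsZero B := by
    refine isZero_of_all hcons fun m z => ?_
    obtain ⟨y, rfl⟩ := surj_of_inj hT
      (fun m => trunc_injective (R := R) hnd ht hrig hcons m hT hA hB) m z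
    obtain ⟨x, rfl⟩ := hf m y
    rw [← mp_comp_apply, t.zero_of_isLE_of_isGE (f ≫ g) n (n + 1) (by lia) hX hB, mp_zero,
      LinearMap.zero_apply]
  have : IsIso i := (Triangle.isZero₃_iff_isIso₁ _ hT).1 hB0
  exact t.isLE_of_iso (asIso i) n

/-- A quotient on cohomology of an object of `D^{≥ n}` is in `D^{≥ n}`. -/
theorem isGE_of_surj [CharZero F] (hnd : Nondegenerate t) (ht : TensorCompatible t)
    (hrig : IsRigid T) (hcons : R.Conservative) {X Y : T} (f : X ⟶ Y)
    (hf : ∀ (m : ℤ) (z : R.Hm m Y), ∃ y : R.Hm m X, R.mp m f y = z) {n : ℤ} (hX : t.IsGE X n) :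
    t.IsGE Y n := by
  obtain ⟨K, k, κ, hK⟩ := distinguished_cocone_triangle₁ f
  have hK1 : t.IsGE K n := isGE_of_inj hnd ht hrig hcons k (inj_of_surj hK hf) hX
  obtain ⟨A, B, i, g, δ, hT, hA, hB⟩ := exists_trunc t Y (n - 1) n (by lia)
  have hB' : t.IsGE B (n - 1 + 1) := by rwa [sub_add_cancel]
  have hA0 : IsZero A := by
    have h1 : i ≫ κ = 0 := by
      refine eq_zero_of_level hnd ht hrig hcons hA (t.isGE_shift K n 1 (n - 1) (by lia)) _
        fun m => ?_
      rw [mp_comp, zero_of_surj hK hf, LinearMap.zero_comp]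
    obtain ⟨j, hj⟩ : ∃ j : A ⟶ X, i = j ≫ f := Triangle.coyoneda_exact₃ _ hK i h1
    have h2 : j = 0 := t.zero_of_isLE_of_isGE j (n - 1) n (by lia) hA hX
    refine isZero_of_all hcons fun m y => ?_
    refine trunc_injective hnd ht hrig hcons m hT hA hB' y ?_
    rw [hj, h2, zero_comp, mp_zero, LinearMap.zero_apply]
  have : IsIso g := (Triangle.isZero₁_iff_isIso₂ _ hT).1 hA0
  exact t.isGE_of_iso (asIso g).symm n

/-- An induction principle: if a class of objects is closed under subobjects and quotients on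
cohomology, and its members of a single level belong to the triangulated envelope of `Q`, then
all of its members do. -/
theorem mem_envelope_of_levels [CharZero F] (hnd : Nondegenerate t) (ht : TensorCompatible t)
    (hrig : IsRigid T) (hcons : R.Conservative) (Q : ObjectProperty T) [Q.Nonempty]
    (π : T → Prop)
    (hπ : ∀ {A X B : T} {f : A ⟶ X} {g : X ⟶ B} {δ : B ⟶ A⟦(1 : ℤ)⟧},
      Triangle.mk f g δ ∈ distTriang T → (∀ (m : ℤ) (x : R.Hm m A), R.mp m f x = 0 → x = 0) →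
      π X → π A ∧ π B)
    (hQ : ∀ (X : T) (a : ℤ), t.IsLE X a → t.IsGE X a → π X → Q.triangEnvelope X)
    {X : T} (hX : π X) : Q.triangEnvelope X := by
  obtain ⟨b, hb1, hb2⟩ := bounded_of_conservative hnd ht hcons X
  have key : ∀ (k : ℕ) (X : T), π X → t.IsGE X (-(b : ℤ)) → t.IsLE X (-(b : ℤ) - 1 + k) →
      Q.triangEnvelope X := by
    intro k
    induction k with
    | zero =>
      intro X _ h1 h2
      have h3 : IsZero X := by
        rw [IsZero.iff_id_eq_zero]
        exact t.zero_of_isLE_of_isGE _ _ _ (by push_cast; lia) h2 h1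
      exact Q.triangEnvelope.prop_of_isZero h3
    | succ k ih =>
      intro X hX h1 h2
      obtain ⟨A', G, f, g, δ, hT, hA', hG⟩ := exists_trunc t X (-(b : ℤ) - 1 + k)
        (-(b : ℤ) - 1 + k + 1) rfl
      obtain ⟨hπ1, hπ2⟩ := hπ hT
        (fun m => trunc_injective (R := R) hnd ht hrig hcons m hT hA' hG) hX
      have h3 : t.IsGE A' (-(b : ℤ)) :=
        isGE₁ t hT _ h1 (t.isGE_of_ge G _ (-(b : ℤ) - 1 + k + 1) (by lia))
      have h4 : t.IsLE G (-(b : ℤ) - 1 + k + 1) := by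
        refine isLE₃ t hT _ (t.isLE_of_le A' (-(b : ℤ) - 1 + k) _ (by lia)) ?_
        rwa [show -(b : ℤ) - 1 + ((k + 1 : ℕ) : ℤ) = -(b : ℤ) - 1 + k + 1 by
          push_cast; ring] at h2
      exact Q.triangEnvelope.ext_of_isTriangulatedClosed₂ _ hT (ih A' hπ1 h3 hA')
        (hQ G _ h4 hG hπ2)
  exact key (2 * b + 1) X hX hb1 (t.isLE_of_le X b _ (by push_cast; lia))

lemma conc_sub_quot {d : ℤ} {A X B : T} {f : A ⟶ X} {g : X ⟶ B} {δ : B ⟶ A⟦(1 : ℤ)⟧}
    (hT : Triangle.mk f g δ ∈ distTriang T)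
    (hf : ∀ (m : ℤ) (x : R.Hm m A), R.mp m f x = 0 → x = 0) (hX : R.ConcentratedIn d X) :
    R.ConcentratedIn d A ∧ R.ConcentratedIn d B := by
  constructor
  · intro i hi
    have h1 : ∀ x : R.Hm i A, x = 0 := fun x => hf i x ((hX i hi).elim _ _)
    exact ⟨fun x y => (h1 x).trans (h1 y).symm⟩
  · intro i hi
    have h1 : ∀ x : R.Hm i B, x = 0 := by
      intro x
      obtain ⟨y, rfl⟩ := surj_of_inj hT hf i x
      rw [show y = 0 from (hX i hi).elim _ _, map_zero]
    exact ⟨fun x y => (h1 x).trans (h1 y).symm⟩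

/-- A nonzero object concentrated in one degree has an invertible object as a direct summand of
a tensor power. -/
lemma exists_invertible [IsIdempotentComplete T] [CharZero F] (hrig : IsRigid T)
    (hcons : R.Conservative) {E : T} {s : ℤ} (hs : R.ConcentratedIn s E) (hE0 : ¬ IsZero E) :
    ∃ (n : ℕ) (L L' : T), Nonempty (Retract L (tpow E n)) ∧ Nonempty (L ⊗ L' ≅ 𝟙_ T) ∧
      R.ConcentratedIn (((n : ℤ) + 1) * s) L ∧ ¬ IsZero L := by
  obtain ⟨n, L, ⟨r⟩, hL⟩ := exists_det hcons hs hE0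
  obtain ⟨L', ⟨e⟩⟩ := exists_inverse hrig hcons hL
  refine ⟨n, L, L', ⟨r⟩, ⟨e⟩, fun i hi => ?_, fun h => ?_⟩
  · refine R.van_of_retract r (R.conc_tpow hs n i ?_)
    have h1 : ∀ k : ℕ, dg s k = ((k : ℤ) + 1) * s := by
      intro k
      induction k with
      | zero => simp [dg]
      | succ k ih =>
        simp only [dg]
        rw [ih]
        push_cast
        ring
    rwa [h1]
  · have h12 := (R.dm_eq_zero_iff L).2 fun i => R.van_of_isZero h i
    lia

lemma invertible_shift {L L' : T} (e : L ⊗ L' ≅ 𝟙_ T) (m : ℤ) :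
    Nonempty ((L⟦m⟧) ⊗ (L'⟦-m⟧) ≅ 𝟙_ T) :=
  ⟨shiftRight _ _ (-m) ≪≫ (shiftFunctor T (-m)).mapIso (shiftLeft L L' m) ≪≫
      shiftShiftNeg _ m ≪≫ e⟩

lemma isZero_of_isZero_shift {X : T} (n : ℤ) (h : IsZero (X⟦n⟧)) : IsZero X :=
  ((shiftFunctor T (-n)).map_isZero h).of_iso (shiftShiftNeg X n).symm

lemma level_unique {X : T} (hX : ¬ IsZero X) {a b : ℤ} (h1 : t.IsLE X a) (h2 : t.IsGE X a)
    (h3 : t.IsLE X b) (h4 : t.IsGE X b) : a = b := by
  by_contra hne
  apply hX
  rw [IsZero.iff_id_eq_zero]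
  rcases lt_or_gt_of_ne hne with h | h
  · exact t.zero_of_isLE_of_isGE _ _ _ h h1 h4
  · exact t.zero_of_isLE_of_isGE _ _ _ h h3 h2

lemma conc_unique (hcons : R.Conservative) {X : T} (hX : ¬ IsZero X) {a b : ℤ}
    (h1 : R.ConcentratedIn a X) (h2 : R.ConcentratedIn b X) : a = b := by
  by_contra hne
  apply hX
  apply hcons
  intro i
  by_cases hi : i = a
  · exact h2 i (by lia)
  · exact h1 i hi

end Realization

end Pool.Agent.Lib.MotT
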