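import Pool.Agent.Lib.MP_6d0ce9_ag.An.Uniq
import Pool.Agent.Lib.MP_6d0ce9_ag.An.ClDefs

/-!
# Vanishing from a t-structure
-/

set_option linter.unusedSectionVars false

universe w v u

open CategoryTheory Category Limits MonoidalCategory Pretriangulated Triangulated
  ObjectProperty
open scoped ZeroObject

namespace Pool.Agent.Lib.MotT

variable {T : Type u} [Category.{v} T] [Preadditive T] [HasZeroObject T] [HasShift T ℤ]
  [∀ n : ℤ, (shiftFunctor T n).Additive] [Pretriangulated T] [IsTriangulated T]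
  [MonoidalCategory T] [SymmetricCategory T] [∀ X : T, (tensorLeft X).CommShift ℤ]
  [∀ X : T, (tensorLeft X).IsTriangulated] {F : Type w} [Field F] {R : Realization T F}
  {t : TStructure T} {S : ObjectProperty T}

/-- If there is a t-structure with the objects of `S` of degree `j` at level `mj/2` then there
are no nonzero morphisms in the expected range. -/
theorem vanishing_of_gd [IsIdempotentComplete T] [CharZero F] [S.IsStableUnderRetracts]
    (hnd : Nondegenerate t) (ht : TensorCompatible t) (hrig : IsRigid T) (hconn : ConnectedUnit T)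
    (hcons : R.Conservative) {m : ℤ} (hm : 2 ≤ m) (hS : IsChowClass S)
    (hGd : ∀ A, S A → R.Gd t m A) : VanishingUpTo R S m := by
  intro A hA j n hj hj0 hn f
  rcases eq_or_ne j n with rfl | hne
  · obtain rfl : m = 2 := by nlinarith
    have hR := texact_of_two hnd ht hrig hcons hGd rfl hS
    have hinj := Realization.injectiveOnPure_of_coconnective
      (Realization.injectiveOnCoconnective_of_exact hnd ht hrig hconn hR)
    exact beilinsonSoule_of_ratEqNum hrig hS (ratEqNumUpTo_of_inj hrig hinj hS) A hA j j hj hj0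
      le_rfl f
  · obtain ⟨c, hc1, hc2⟩ : ∃ c : ℤ, 2 * c ≤ j * m ∧ j * m < 2 * c + 2 :=
      ⟨j * m / 2, by lia, by lia⟩
    obtain ⟨-, h2⟩ := (hGd A hA).1.pure hnd ht hrig hcons hj hc1 hc2
    have h3 : t.IsGE (A⟦n⟧) (c - n) := t.isGE_shift A c n (c - n) (by lia)
    have h4 : t.IsGE (A⟦n⟧) 0 := t.isGE_of_ge _ 0 (c - n) (by nlinarith)
    refine Realization.eq_zero_of_level hnd ht hrig hcons (unit_mem hnd ht).1 h4 f fun i => ?_
    by_cases hi : i = 0
    · subst hi
      ext x
      exact (hj.shift n 0 (by lia)).elim _ _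
    · ext x
      rw [show x = 0 from (R.unit_conc i hi).elim _ _, map_zero, map_zero]

/-- If some `𝟙 ⟶ A[n]` has a nonzero composition with some `A[n] ⟶ 𝟙` then `A` in `S` is
concentrated in degree `0`, and `n = 0`. -/
lemma degree_of_detected [S.IsStableUnderRetracts] (hrig : IsRigid T) (hS : IsChowClass S)
    {A : T} (hA : S A) {j n : ℤ} (hj : R.ConcentratedIn j A) {f : 𝟙_ T ⟶ A⟦n⟧}
    {g : A⟦n⟧ ⟶ 𝟙_ T} (hfg : f ≫ g ≠ 0) : j = n ∧ n = 0 := by
  have hiso := hS.field _ hfg
  have r : Retract (𝟙_ T) (A⟦n⟧) := ⟨f, g ≫ inv (f ≫ g), by rw [← assoc, IsIso.hom_inv_id]⟩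
  have hne : ∀ X : T, (X ≅ 𝟙_ T) → ¬ IsZero X := by
    intro X e h0
    obtain ⟨c₀, hc₀⟩ := R.nontrivial_unit
    exact hc₀ ((R.van_of_isZero (h0.of_iso e.symm) 0).elim _ _)
  have h1 : j = n := by
    by_contra hne'
    obtain ⟨c₀, hc₀⟩ := R.nontrivial_unit
    exact hc₀ ((R.van_of_retract r (hj.shift n 0 (by lia))).elim _ _)
  refine ⟨h1, ?_⟩
  have hS1 : S ((𝟙_ T)⟦-n⟧) :=
    prop_of_retract _ ((r.map (shiftFunctor T (-n))).trans (shiftShiftNeg A n).retract) hA
  have key : ∀ k : ℤ, 0 < k → ¬ S ((𝟙_ T)⟦-k⟧) := by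
    intro k hk h
    have h2 : 𝟙 (𝟙_ T) = 0 := by
      have h3 := hS.pos _ h k hk (shiftNegShift (𝟙_ T) k).inv
      rw [← cancel_mono (shiftNegShift (𝟙_ T) k).inv, id_comp, zero_comp]
      exact h3
    exact hne _ (Iso.refl _) ((IsZero.iff_id_eq_zero _).2 h2)
  rcases lt_trichotomy n 0 with h | h | h
  · obtain ⟨A', hA', ⟨hAA'⟩⟩ := hS.dual _ hS1
    exfalso
    obtain ⟨e'⟩ : Nonempty (A' ≅ (𝟙_ T)⟦- -n⟧) := by
      let _ : ExactPairing (𝟙_ T) (𝟙_ T) := exactPairingUnit
      exact dual_shift hrig (A := 𝟙_ T) (-n)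
    refine key (-n) (by lia) (S.prop_of_iso (e' ≪≫ ?_) hA')
    exact Iso.refl _
  · exact h
  · exact absurd hS1 (key n h)

/-- `NumUpTo` in terms of the separate conditions. -/
theorem numUpTo_iff [S.IsStableUnderRetracts] (hrig : IsRigid T) (hS : IsChowClass S) {m : ℤ}
    (hm : 2 ≤ m) : NumUpTo R S m ↔ RatEqNumFromZero R S ∧ VanishingUpTo R S m ∧
      ∀ A, S A → ∀ j, R.ConcentratedIn j A → ¬ Even (j * m) → IsZero A := by
  constructor
  · intro h
    refine ⟨?_, ?_, ?_⟩
    · intro A hA j n hj hj0 hn f hf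
      refine (h A hA j hj).2 n ?_ f hf
      by_contra hcon
      have : 0 < n := by nlinarith
      exact hf (hS.pos A hA n this f)
    · intro A hA j n hj hj0 hn f
      by_contra hf
      obtain ⟨g, hg⟩ := (h A hA j hj).2 n hn f hf
      obtain ⟨h1, h2⟩ := degree_of_detected hrig hS hA hj hg
      lia
    · intro A hA j hj hjm
      refine (h A hA j hj).1 ?_
      rw [mul_comm]
      exact Int.not_even_iff_odd.1 hjm
  · rintro ⟨hnum, hV, hodd⟩ A hA j hj
    refine ⟨fun h => hodd A hA j hj ?_, fun n hn f hf => ?_⟩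
    · rw [mul_comm, Int.not_even_iff_odd]
      exact h
    · rcases lt_or_ge j 0 with hj0 | hj0
      · exact absurd (hV A hA j n hj hj0 hn f) hf
      · have hn0 : n ≤ 0 := by
          by_contra hn0
          exact hf (hS.pos A hA n (by lia) f)
        exact hnum A hA j n hj hj0 (by lia) f hf

lemma beilinsonSoule_iff : BeilinsonSoule R S ↔ VanishingUpTo R S 2 := by
  constructor
  · intro h A hA j n hj hj0 hn f
    exact h A hA j n hj hj0 (by lia) f
  · intro h A hA j n hj hj0 hn f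
    exact h A hA j n hj hj0 (by lia) f

end Pool.Agent.Lib.MotT
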